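import Pool.Agent.LibDown92.Const
import Pool.Agent.LibBHN.Count

/-!
[TD P5] Wrong advice, in the class.
-/

namespace Pool.Agent.LibDown92

open Function Pool.Agent.LibNexp Pool.Agent.LibBHN Pool.Agent.LibDual85

variable {O : List Bool → Bool} {h : ℕ → ℕ}

/-- The advice `v`, padded, is wrong for the padded language at the length `r` which is the
largest with `r ^ C + C ≤ ℓ`. -/
def Wro (L B : Lang) (C : ℕ) (ℓ : ℕ) (v : List Bool) : Prop :=
  ∃ y v' : List Bool, (∃ w, IsPad w ∧ v = v' ++ w) ∧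
    (y.length ^ C + C ≤ ℓ ∧ ℓ < (y.length + 1) ^ C + C) ∧ y ∈ padLang L ∧ pair y v' ∈ B

/-- PROOF: `nexp_exN` with `y, v'` and strings of lengths `y.length ^ C + C` (`nexp_powAdd`),
`y.length + 1` (`nexp_lin 1 1`), `(y.length + 1) ^ C + C`; for `<` use `nexp_lenLe` with a string
of length `ℓ + 1` (`nexp_lin 1 1`). All lengths are polynomial: `y.length ≤ ℓ` because `C ≥ 1`.
`nexp_catPad` (LibNexp.PowLaw) for the padding, `nexp_mem (padLang_mem hL)`, `nexp_pair_mem hB`. -/
theorem nexp_wro {L B : Lang} (hL : L ∈ NEXPLang O) (hB : B ∈ NEXPLang O) {C : ℕ} (hC : 1 ≤ C) :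
    NEXP O fun e : Fin 2 → List Bool => Wro L B C (e 0).length (e 1) := by
  have h1 : NEXP O fun e : Fin 8 → List Bool =>
      (∃ w, IsPad w ∧ e 1 = e 3 ++ w) ∧
      ((e 4).length = (e 2).length ^ C + C ∧ (e 4).length ≤ (e 0).length) ∧
      ((e 5).length = 1 * (e 2).length + 1 ∧ (e 6).length = (e 5).length ^ C + C ∧
        (e 7).length = 1 * (e 0).length + 1 ∧ (e 7).length ≤ (e 6).length) ∧
      e 2 ∈ padLang L ∧ pair (e 2) (e 3) ∈ B :=
    (((nexp_catPad (O := O)).reindex ![3, 1]).congr fun e => by simp).and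
      (((nexp_powAdd C C 2 4).and (nexp_lenLe 4 0)).and
      (((nexp_lin 1 1 2 5).and ((nexp_powAdd C C 5 6).and ((nexp_lin 1 1 0 7).and
        (nexp_lenLe 7 6)))).and ((nexp_mem (padLang_mem hL) 2).and (nexp_pair_mem hB 2 3))))
  have hpow : ∀ a : ℕ, a ≤ a ^ C := fun a => Nat.le_self_pow (by omega) a
  have h2 : NEXP O fun e : Fin 2 → List Bool => ∃ z : Fin 6 → List Bool,
      (∃ w, IsPad w ∧ e 1 = z 1 ++ w) ∧
      ((z 2).length = (z 0).length ^ C + C ∧ (z 2).length ≤ (e 0).length) ∧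
      ((z 3).length = 1 * (z 0).length + 1 ∧ (z 4).length = (z 3).length ^ C + C ∧
        (z 5).length = 1 * (e 0).length + 1 ∧ (z 5).length ≤ (z 4).length) ∧
      z 0 ∈ padLang L ∧ pair (z 0) (z 1) ∈ B := by
    refine nexp_exN (m := 6) (R := fun (e : Fin 2 → List Bool) (z : Fin 6 → List Bool) =>
      (∃ w, IsPad w ∧ e 1 = z 1 ++ w) ∧
      ((z 2).length = (z 0).length ^ C + C ∧ (z 2).length ≤ (e 0).length) ∧
      ((z 3).length = 1 * (z 0).length + 1 ∧ (z 4).length = (z 3).length ^ C + C ∧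
        (z 5).length = 1 * (e 0).length + 1 ∧ (z 5).length ≤ (z 4).length) ∧
      z 0 ∈ padLang L ∧ pair (z 0) (z 1) ∈ B) h1 (g := fun n => (n + 1) ^ C + C + (n + 1))
      ((((PolyB.id.add (PolyB.const 1)).pow C).add (PolyB.const C)).add
        (PolyB.id.add (PolyB.const 1))) (fun a b hab => ?_) ?_
    · show (a + 1) ^ C + C + (a + 1) ≤ (b + 1) ^ C + C + (b + 1)
      have := Nat.pow_le_pow_left (Nat.succ_le_succ hab) C
      simp only [Nat.succ_eq_add_one] at this
      omega
    · rintro e z ⟨⟨w, -, h3⟩, ⟨h4, h5⟩, ⟨h6, h7, h8, h9⟩, -⟩ j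
      have e0 := len_le_size e 0
      have e1 := len_le_size e 1
      have h10 := congrArg List.length h3
      rw [List.length_append] at h10
      have h11 := hpow (z 0).length
      have h12 : (z 3).length ≤ size e + 1 := by omega
      have h13 := Nat.pow_le_pow_left h12 C
      show (z j).length ≤ (size e + 1) ^ C + C + (size e + 1)
      fin_cases j
      · show (z 0).length ≤ _; omega
      · show (z 1).length ≤ _; omega
      · show (z 2).length ≤ _; omega
      · show (z 3).length ≤ _; omega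
      · show (z 4).length ≤ _; omega
      · show (z 5).length ≤ _; omega
  refine h2.congr fun e => ?_
  constructor
  · rintro ⟨z, h3, ⟨h4, h5⟩, ⟨h6, h7, h8, h9⟩, h10, h11⟩
    refine ⟨z 0, z 1, h3, ⟨by omega, ?_⟩, h10, h11⟩
    rw [one_mul] at h6
    rw [h6] at h7
    omega
  · rintro ⟨y, v', h3, ⟨h4, h5⟩, h6, h7⟩
    refine ⟨![y, v', List.replicate (y.length ^ C + C) true,
      List.replicate (1 * y.length + 1) true, List.replicate ((1 * y.length + 1) ^ C + C) true,
      List.replicate (1 * (e 0).length + 1) true], h3, ⟨?_, ?_⟩, ⟨?_, ?_, ?_, ?_⟩, h6, h7⟩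
    · show (List.replicate (y.length ^ C + C) true).length = _
      rw [List.length_replicate]
      rfl
    · show (List.replicate (y.length ^ C + C) true).length ≤ _
      rw [List.length_replicate]
      exact h4
    · show (List.replicate (1 * y.length + 1) true).length = _
      rw [List.length_replicate]
      rfl
    · show (List.replicate ((1 * y.length + 1) ^ C + C) true).length =
        (List.replicate (1 * y.length + 1) true).length ^ C + C
      rw [List.length_replicate, List.length_replicate]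
    · show (List.replicate (1 * (e 0).length + 1) true).length = _
      rw [List.length_replicate]
    · show (List.replicate (1 * (e 0).length + 1) true).length ≤
        (List.replicate ((1 * y.length + 1) ^ C + C) true).length
      rw [List.length_replicate, List.length_replicate, one_mul, one_mul]
      omega

/-- The index of a length. PROOF: `j` least with `1 ≤ j` and `(n + 1) ^ C + C ≤ h j`
(exists: `j ≤ h j`). If `j = 1` then `h j = h 1`; otherwise
`h (j - 1) < (n + 1) ^ C + C` and `h j ≤ h (j - 1) ^ K + K`. -/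
theorem exists_index (hs : StrictMono h) {K : ℕ} (hK : ∀ n, h (n + 1) ≤ h n ^ K + K) (C n : ℕ) :
    ∃ j, 1 ≤ j ∧ (n + 1) ^ C + C ≤ h j ∧ h j ≤ ((n + 1) ^ C + C) ^ K + K + h 1 := by
  classical
  have hex : ∃ j, 1 ≤ j ∧ (n + 1) ^ C + C ≤ h j := by
    refine ⟨(n + 1) ^ C + C + 1, by omega, ?_⟩
    have h1 : (n + 1) ^ C + C + 1 ≤ h ((n + 1) ^ C + C + 1) := hs.id_le _
    omega
  refine ⟨Nat.find hex, (Nat.find_spec hex).1, (Nat.find_spec hex).2, ?_⟩
  have h0 := (Nat.find_spec hex).1
  rcases hj : Nat.find hex with _ | i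
  · omega
  · rcases Nat.eq_zero_or_pos i with hi | hi
    · rw [hi]
      exact Nat.le_add_left _ _
    · have h1 : ¬ (1 ≤ i ∧ (n + 1) ^ C + C ≤ h i) := Nat.find_min hex (by omega)
      have h2 : h i ≤ (n + 1) ^ C + C := by
        by_contra h3
        exact h1 ⟨hi, by omega⟩
      have h3 := Nat.pow_le_pow_left h2 K
      have h4 := hK i
      omega

/-- The largest `r` with `r ^ C + C ≤ h j`. PROOF: `Nat.findGreatest`. -/
theorem exists_root {C : ℕ} (hC : 1 ≤ C) {n ℓ : ℕ} (h1 : (n + 1) ^ C + C ≤ ℓ) :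
    ∃ r, n + 1 ≤ r ∧ r ^ C + C ≤ ℓ ∧ ℓ < (r + 1) ^ C + C := by
  classical
  have hpow : ∀ a : ℕ, a ≤ a ^ C := fun a => Nat.le_self_pow (by omega) a
  have h2 : n + 1 ≤ ℓ := by
    have := hpow (n + 1)
    omega
  refine ⟨Nat.findGreatest (fun r => r ^ C + C ≤ ℓ) ℓ, Nat.le_findGreatest h2 h1,
    Nat.findGreatest_spec (P := fun r => r ^ C + C ≤ ℓ) h2 h1, ?_⟩
  by_contra h3
  have h4 : (Nat.findGreatest (fun r => r ^ C + C ≤ ℓ) ℓ + 1) ^ C + C ≤ ℓ := by omega
  have h5 := hpow (Nat.findGreatest (fun r => r ^ C + C ≤ ℓ) ℓ + 1)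
  have h6 : Nat.findGreatest (fun r => r ^ C + C ≤ ℓ) ℓ + 1 ≤
      Nat.findGreatest (fun r => r ^ C + C ≤ ℓ) ℓ :=
    Nat.le_findGreatest (P := fun r => r ^ C + C ≤ ℓ) (by omega) h4
  omega

end Pool.Agent.LibDown92
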