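import Pool.Agent.LibDown92.DecQ
import Pool.Agent.LibDown92.Wro
import Pool.Agent.LibSpec30.Defs

/-!
[TD P6] Closure under complement of a larger class removes the advice.
-/

namespace Pool.Agent.LibDown92

open Function Pool.Agent.LibNexp Pool.Agent.LibBHN Pool.Agent.LibDual85
open Pool.Agent.LibSpec30 (Enough)

variable {O : List Bool → Bool} {h : ℕ → ℕ}

/-- (a): the length of the second string is at most a polynomial in that of the first. -/
theorem downH_poly (C K a : ℕ) : NEXP O fun e : Fin 2 → List Bool =>
    (e 1).length ≤ (((e 0).length + 1) ^ C + C) ^ K + a := by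
  have h2 : NEXP O fun e : Fin 2 → List Bool => ∃ z : Fin 3 → List Bool,
      ((z 0).length = 1 * (e 0).length + 1 ∧ (z 1).length = (z 0).length ^ C + C) ∧
      ((z 2).length = (z 1).length ^ K + a ∧ (e 1).length ≤ (z 2).length) := by
    refine nexp_exN (m := 3) (R := fun (e : Fin 2 → List Bool) (z : Fin 3 → List Bool) =>
      ((z 0).length = 1 * (e 0).length + 1 ∧ (z 1).length = (z 0).length ^ C + C) ∧
      ((z 2).length = (z 1).length ^ K + a ∧ (e 1).length ≤ (z 2).length))
      (((nexp_lin 1 1 0 2).and (nexp_powAdd C C 2 3)).and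
        ((nexp_powAdd K a 3 4).and (nexp_lenLe 1 4)))
      (g := fun n => (n + 1) + ((n + 1) ^ C + C) + (((n + 1) ^ C + C) ^ K + a))
      ((((PolyB.id.add (PolyB.const 1))).add (((PolyB.id.add (PolyB.const 1)).pow C).add
        (PolyB.const C))).add (((((PolyB.id.add (PolyB.const 1)).pow C).add
        (PolyB.const C)).pow K).add (PolyB.const a))) ?_ ?_
    · intro m n hmn
      show (m + 1) + ((m + 1) ^ C + C) + (((m + 1) ^ C + C) ^ K + a) ≤
        (n + 1) + ((n + 1) ^ C + C) + (((n + 1) ^ C + C) ^ K + a)
      have h1 : (m + 1) ^ C ≤ (n + 1) ^ C := Nat.pow_le_pow_left (by omega) C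
      have h2 : ((m + 1) ^ C + C) ^ K ≤ ((n + 1) ^ C + C) ^ K :=
        Nat.pow_le_pow_left (by omega) K
      omega
    · rintro e z ⟨⟨h3, h4⟩, ⟨h5, -⟩⟩ j
      have h0 := len_le_size e 0
      have h6 : (z 0).length ≤ size e + 1 := by omega
      have h7 : (z 0).length ^ C ≤ (size e + 1) ^ C := Nat.pow_le_pow_left h6 C
      have h8 : (z 1).length ≤ (size e + 1) ^ C + C := by omega
      have h9 : (z 1).length ^ K ≤ ((size e + 1) ^ C + C) ^ K := Nat.pow_le_pow_left h8 K
      show (z j).length ≤ (size e + 1) + ((size e + 1) ^ C + C) +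
        (((size e + 1) ^ C + C) ^ K + a)
      fin_cases j
      · show (z 0).length ≤ _; omega
      · show (z 1).length ≤ _; omega
      · show (z 2).length ≤ _; omega
  refine h2.congr fun e => ?_
  constructor
  · rintro ⟨z, ⟨h3, h4⟩, h5, h6⟩
    rw [h5, h4, h3, one_mul] at h6
    exact h6
  · intro h3
    refine ⟨![List.replicate ((e 0).length + 1) true,
      List.replicate (((e 0).length + 1) ^ C + C) true,
      List.replicate ((((e 0).length + 1) ^ C + C) ^ K + a) true], ⟨?_, ?_⟩, ?_, ?_⟩
    · show (List.replicate _ true).length = _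
      rw [List.length_replicate, one_mul]
    · show (List.replicate _ true).length = (List.replicate _ true).length ^ C + C
      rw [List.length_replicate, List.length_replicate]
    · show (List.replicate _ true).length = (List.replicate _ true).length ^ K + a
      rw [List.length_replicate, List.length_replicate]
    · show _ ≤ (List.replicate _ true).length
      rw [List.length_replicate]
      exact h3

/-- (e): the length of the first string is the root of the length of the second. -/
theorem downH_root (C : ℕ) : NEXP O fun e : Fin 2 → List Bool =>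
    (e 0).length ^ C + C ≤ (e 1).length ∧ (e 1).length < ((e 0).length + 1) ^ C + C := by
  have h2 : NEXP O fun e : Fin 2 → List Bool => ∃ z : Fin 4 → List Bool,
      ((z 0).length = (e 0).length ^ C + C ∧ (z 0).length ≤ (e 1).length) ∧
      (((z 1).length = 1 * (e 0).length + 1 ∧ (z 2).length = (z 1).length ^ C + C) ∧
      ((z 3).length = 1 * (e 1).length + 1 ∧ (z 3).length ≤ (z 2).length)) := by
    refine nexp_exN (m := 4) (R := fun (e : Fin 2 → List Bool) (z : Fin 4 → List Bool) =>
      ((z 0).length = (e 0).length ^ C + C ∧ (z 0).length ≤ (e 1).length) ∧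
      (((z 1).length = 1 * (e 0).length + 1 ∧ (z 2).length = (z 1).length ^ C + C) ∧
      ((z 3).length = 1 * (e 1).length + 1 ∧ (z 3).length ≤ (z 2).length)))
      (((nexp_powAdd C C 0 2).and (nexp_lenLe 2 1)).and
        (((nexp_lin 1 1 0 3).and (nexp_powAdd C C 3 4)).and
        ((nexp_lin 1 1 1 5).and (nexp_lenLe 5 4))))
      (g := fun n => (n + 1) + ((n + 1) ^ C + C))
      ((PolyB.id.add (PolyB.const 1)).add (((PolyB.id.add (PolyB.const 1)).pow C).add
        (PolyB.const C))) ?_ ?_
    · intro m n hmn
      show (m + 1) + ((m + 1) ^ C + C) ≤ (n + 1) + ((n + 1) ^ C + C)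
      have h1 : (m + 1) ^ C ≤ (n + 1) ^ C := Nat.pow_le_pow_left (by omega) C
      omega
    · rintro e z ⟨⟨-, h3⟩, ⟨h4, h5⟩, ⟨h6, -⟩⟩ j
      have h0 := len_le_size e 0
      have h1 := len_le_size e 1
      have h7 : (z 1).length ^ C ≤ (size e + 1) ^ C := Nat.pow_le_pow_left (by omega) C
      show (z j).length ≤ (size e + 1) + ((size e + 1) ^ C + C)
      fin_cases j
      · show (z 0).length ≤ _; omega
      · show (z 1).length ≤ _; omega
      · show (z 2).length ≤ _; omega
      · show (z 3).length ≤ _; omega
  refine h2.congr fun e => ?_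
  constructor
  · rintro ⟨z, ⟨h3, h4⟩, ⟨h5, h6⟩, h7, h8⟩
    rw [h6, h5, h7, one_mul, one_mul] at h8
    exact ⟨by omega, by omega⟩
  · rintro ⟨h3, h4⟩
    refine ⟨![List.replicate ((e 0).length ^ C + C) true,
      List.replicate ((e 0).length + 1) true,
      List.replicate (((e 0).length + 1) ^ C + C) true,
      List.replicate ((e 1).length + 1) true], ⟨?_, ?_⟩, ⟨?_, ?_⟩, ?_, ?_⟩
    · show (List.replicate _ true).length = _
      rw [List.length_replicate]
    · show (List.replicate _ true).length ≤ _
      rw [List.length_replicate]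
      exact h3
    · show (List.replicate _ true).length = _
      rw [List.length_replicate, one_mul]
    · show (List.replicate _ true).length = (List.replicate _ true).length ^ C + C
      rw [List.length_replicate, List.length_replicate]
    · show (List.replicate _ true).length = _
      rw [List.length_replicate, one_mul]
    · show (List.replicate _ true).length ≤ (List.replicate _ true).length
      rw [List.length_replicate, List.length_replicate]
      omega

/-- Downward translation. PROOF. Let `L` be in the class and `hE` applied to `padLang L`: `c`,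
`B`, `f` with `z ∉ padLang L ↔ pair z (f z.length) ∈ B`, `(f n).length ≤ s n + c`. Put
`q = 2 * C + c`. By `dec_all` and `nexp_wro` the fact
`D ℓ v := (∃ j, ℓ = h j ∧ v.length = q * j) ∧ ¬ Wro L B C ℓ v` is in the class.
CLAIM: `x ∉ L` iff there are strings `z, v, y, v'` with
 (a) `z.length ≤ ((x.length + 1) ^ C + C) ^ K + K + h 1`,
 (b) `D z.length v`, (c) `∃ w, IsPad w ∧ v = v' ++ w`, (d) `∃ w, IsPad w ∧ y = x ++ w`,
 (e) `y.length ^ C + C ≤ z.length ∧ z.length < (y.length + 1) ^ C + C`, (f) `pair y v' ∈ B`.
`←`: if `x ∈ L` then `y ∈ padLang L` (`mem_padLang`) so `Wro L B C z.length v`, contradiction.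
`→`: `exists_index`, `exists_root` give `j, r`; `z` of length `h j`, `y = x ++ pad` of length `r`
(`r ≥ n + 1`, pad = `true :: replicate (r - n - 1) false`), `v' = f r`. Since
`h (s r / C) ≤ r ^ C + C ≤ h j` we get `s r / C ≤ j` (`hs.le_iff_le`), so `s r < C * (j + 1)`
(`Nat.div_lt_iff_lt_mul` or `Nat.lt_mul_of_div_lt`) and `(f r).length + 1 ≤ q * j` as `j ≥ 1`;
`v = f r ++ pad` of length `q * j`. `¬ Wro`: if `y₂ ∈ padLang L`, `pair y₂ v₂ ∈ B` with
`v = v₂ ++ pad` and the bounds for `y₂.length`, then `v₂ = f r` (`pad_unique`), `y₂.length = r`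
(monotonicity of `fun r => r ^ C + C`), contradiction with `z ∉ padLang L ↔ ...`.
The right side is in the class: `nexp_exN` (k = 1) with auxiliary strings of the lengths in (a),
(e) (as in `nexp_wro`, `nexp_powAdd`, `nexp_lin`, `nexp_lenLe`, `nexp_catPad`). To shorten it, first
prove `NEXP O` of (e) as a relation between `y` and `z`, and (a) as a relation between `x` and `z`. -/
theorem down_h (hs : StrictMono h) (hg : Graph O h) {K : ℕ} (hK : ∀ n, h (n + 1) ≤ h n ^ K + K)
    (hC : Closed O h) {s : ℕ → ℕ} {C : ℕ} (hC1 : 1 ≤ C) (hsC : ∀ n, h (s n / C) ≤ n ^ C + C)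
    (hE : Enough O s) : ∀ L ∈ NEXPLang O, Lᶜ ∈ NEXPLang O := by
  intro L hL
  obtain ⟨c, B, hB, f, hf', hfB'⟩ := hE _ (padLang_mem hL)
  have hf : ∀ n, (f n).length ≤ s n + c := hf'
  have hfB : ∀ x, x ∉ padLang L ↔ pair x (f x.length) ∈ B := fun x => by
    have := Set.ext_iff.1 hfB' x
    simpa using this
  have hD : NEXP O fun e : Fin 2 → List Bool =>
      (∃ j, (e 0).length = h j ∧ (e 1).length = (2 * C + c) * j) ∧
        ¬ Wro L B C (e 0).length (e 1) :=
    dec_all hs hg (dec_one hs hg hC) (2 * C + c) (Wro L B C) (nexp_wro hL hB hC1)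
  have h1 : NEXP O fun e : Fin 1 → List Bool => ∃ z : Fin 4 → List Bool,
      (((z 0).length ≤ (((e 0).length + 1) ^ C + C) ^ K + (K + h 1)) ∧
        ((∃ j, (z 0).length = h j ∧ (z 1).length = (2 * C + c) * j) ∧
          ¬ Wro L B C (z 0).length (z 1))) ∧
      (((∃ w, IsPad w ∧ z 1 = z 3 ++ w) ∧ (∃ w, IsPad w ∧ z 2 = e 0 ++ w)) ∧
        (((z 2).length ^ C + C ≤ (z 0).length ∧ (z 0).length < ((z 2).length + 1) ^ C + C) ∧
          pair (z 2) (z 3) ∈ B)) := by
    refine nexp_exN (m := 4) (R := fun (e : Fin 1 → List Bool) (z : Fin 4 → List Bool) =>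
      (((z 0).length ≤ (((e 0).length + 1) ^ C + C) ^ K + (K + h 1)) ∧
        ((∃ j, (z 0).length = h j ∧ (z 1).length = (2 * C + c) * j) ∧
          ¬ Wro L B C (z 0).length (z 1))) ∧
      (((∃ w, IsPad w ∧ z 1 = z 3 ++ w) ∧ (∃ w, IsPad w ∧ z 2 = e 0 ++ w)) ∧
        (((z 2).length ^ C + C ≤ (z 0).length ∧ (z 0).length < ((z 2).length + 1) ^ C + C) ∧
          pair (z 2) (z 3) ∈ B)))
      (((((downH_poly (O := O) C K (K + h 1)).reindex ![0, 1]).congr fun e => by simp; rfl).and
        ((hD.reindex ![1, 2]).congr fun e => by simp)).and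
        (((((nexp_catPad (O := O)).reindex ![4, 2]).congr fun e => by simp).and
          (((nexp_catPad (O := O)).reindex ![0, 3]).congr fun e => by simp; rfl)).and
          ((((downH_root (O := O) C).reindex ![3, 1]).congr fun e => by simp).and
            (nexp_pair_mem hB 3 4))))
      (g := fun n => (2 * C + c + 1) * (((n + 1) ^ C + C) ^ K + (K + h 1)))
      ((PolyB.const _).mul (((((PolyB.id.add (PolyB.const 1)).pow C).add
        (PolyB.const C)).pow K).add (PolyB.const _))) ?_ ?_
    · intro m n hmn
      show (2 * C + c + 1) * (((m + 1) ^ C + C) ^ K + (K + h 1)) ≤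
        (2 * C + c + 1) * (((n + 1) ^ C + C) ^ K + (K + h 1))
      have h1 : (m + 1) ^ C ≤ (n + 1) ^ C := Nat.pow_le_pow_left (by omega) C
      have h2 : ((m + 1) ^ C + C) ^ K ≤ ((n + 1) ^ C + C) ^ K :=
        Nat.pow_le_pow_left (by omega) K
      exact Nat.mul_le_mul_left _ (by omega)
    · rintro e z ⟨⟨h3, ⟨i, h4, h5⟩, -⟩, ⟨⟨w, -, h6⟩, -⟩, ⟨h7, -⟩, -⟩ j
      have h0 := len_le_size e 0
      have h8 : ((e 0).length + 1) ^ C ≤ (size e + 1) ^ C := Nat.pow_le_pow_left (by omega) C
      have h9 : (((e 0).length + 1) ^ C + C) ^ K ≤ ((size e + 1) ^ C + C) ^ K :=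
        Nat.pow_le_pow_left (by omega) K
      set P : ℕ := ((size e + 1) ^ C + C) ^ K + (K + h 1) with hP
      have h10 : (z 0).length ≤ P := by omega
      have h11 : i ≤ P := le_trans (hs.id_le i) (by rw [← h4]; exact h10)
      have h12 : (z 1).length ≤ (2 * C + c) * P := by
        rw [h5]
        exact Nat.mul_le_mul_left _ h11
      have h13 : (z 2).length ≤ P := by
        have : (z 2).length ≤ (z 2).length ^ C := Nat.le_self_pow (by omega) _
        omega
      have h14 : (z 3).length ≤ (z 1).length := by
        rw [h6, List.length_append]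
        omega
      have h15 : (2 * C + c + 1) * P = (2 * C + c) * P + P := by ring
      show (z j).length ≤ (2 * C + c + 1) * P
      rw [h15]
      fin_cases j
      · show (z 0).length ≤ _; omega
      · show (z 1).length ≤ _; omega
      · show (z 2).length ≤ _; omega
      · show (z 3).length ≤ _; omega
  refine h1.congr fun e => ?_
  set x := e 0 with hx
  constructor
  · rintro ⟨z, ⟨-, -, h4⟩, ⟨h5, ⟨w, hw, h6⟩⟩, h7, h8⟩ hxL
    refine h4 ⟨z 2, z 3, h5, h7, ?_, h8⟩
    rw [h6]
    exact (mem_padLang hw).2 hxL
  · intro hxL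
    obtain ⟨j, hj1, hj2, hj3⟩ := exists_index hs hK C x.length
    obtain ⟨r, hr1, hr2, hr3⟩ := exists_root hC1 hj2
    have hw : IsPad (true :: List.replicate (r - x.length - 1) false) := ⟨_, rfl⟩
    have hlen : (x ++ true :: List.replicate (r - x.length - 1) false).length = r := by
      rw [List.length_append, List.length_cons, List.length_replicate]
      omega
    have hnot : x ++ true :: List.replicate (r - x.length - 1) false ∉ padLang L :=
      fun h => hxL ((mem_padLang hw).1 h)
    have hsj : s r / C ≤ j := hs.le_iff_le.1 ((hsC r).trans hr2)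
    have hsr : s r < C * (j + 1) := by
      have := Nat.lt_mul_div_succ (s r) (show 0 < C by omega)
      exact this.trans_le (Nat.mul_le_mul_left _ (by omega))
    have hfr : (f r).length + 1 ≤ (2 * C + c) * j := by
      have h2 := hf r
      have h3 : C * (j + 1) = C * j + C := by ring
      have h4 : (2 * C + c) * j = C * j + (C * j + c * j) := by ring
      have h5 : C ≤ C * j := Nat.le_mul_of_pos_right _ (by omega)
      have h6 : c ≤ c * j := Nat.le_mul_of_pos_right _ (by omega)
      omega
    have hv : IsPad (true :: List.replicate ((2 * C + c) * j - (f r).length - 1) false) :=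
      ⟨_, rfl⟩
    refine ⟨![List.replicate (h j) true,
      f r ++ true :: List.replicate ((2 * C + c) * j - (f r).length - 1) false,
      x ++ true :: List.replicate (r - x.length - 1) false, f r],
      ⟨?_, ⟨j, ?_, ?_⟩, ?_⟩, ⟨⟨_, hv, rfl⟩, ⟨_, hw, rfl⟩⟩, ⟨?_, ?_⟩, ?_⟩
    · show (List.replicate (h j) true).length ≤ _
      rw [List.length_replicate]
      omega
    · show (List.replicate (h j) true).length = h j
      rw [List.length_replicate]
    · show (f r ++ true :: List.replicate ((2 * C + c) * j - (f r).length - 1) false).length = _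
      rw [List.length_append, List.length_cons, List.length_replicate]
      omega
    · show ¬ Wro L B C (List.replicate (h j) true).length
        (f r ++ true :: List.replicate ((2 * C + c) * j - (f r).length - 1) false)
      rw [List.length_replicate]
      rintro ⟨y, v', ⟨w, hw', h2⟩, ⟨h3, h4⟩, h5, h6⟩
      have h7 : f r = v' := pad_unique hv hw' h2
      have hmono : StrictMono fun r : ℕ => r ^ C + C := by
        intro a b hab
        have := Nat.pow_lt_pow_left hab (show C ≠ 0 by omega)
        show a ^ C + C < b ^ C + C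
        omega
      have h8 : y.length < r + 1 := hmono.lt_iff_lt.1 (h3.trans_lt hr3)
      have h9 : r < y.length + 1 := hmono.lt_iff_lt.1 (hr2.trans_lt h4)
      have h10 : y.length = r := by omega
      refine (hfB y).2 ?_ h5
      rw [h10, h7]
      exact h6
    · show (x ++ true :: List.replicate (r - x.length - 1) false).length ^ C + C ≤
        (List.replicate (h j) true).length
      rw [hlen, List.length_replicate]
      exact hr2
    · show (List.replicate (h j) true).length <
        ((x ++ true :: List.replicate (r - x.length - 1) false).length + 1) ^ C + C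
      rw [hlen, List.length_replicate]
      exact hr3
    · show pair (x ++ true :: List.replicate (r - x.length - 1) false) (f r) ∈ B
      have := (hfB _).1 hnot
      rw [hlen] at this
      exact this

end Pool.Agent.LibDown92
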