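import Pool.Agent.LibDown92.TB
import Pool.Agent.LibQry85.VPnexp

/-!
[TD P8] Languages of `P^NEXP` which depend only on the length.
-/

namespace Pool.Agent.LibDown92

open Function Pool.Agent.LibNexp Pool.Agent.LibBHN Pool.Agent.LibDual85

variable {O : List Bool → Bool}

theorem mem_tb_iff {K : Lang} {x : List Bool} {n i : ℕ} (h : x.length = (n + 1) ^ 2 + i)
    (hi : i ≤ n) : x ∈ TB K ↔ (bits (n + 1) (cnt n fun y => y ∈ K))[i]? = some true := by
  constructor
  · rintro ⟨m, j, h1, h2, h3⟩
    obtain ⟨rfl, rfl⟩ := tb_shape (h1.symm.trans h) h2 hi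
    exact h3
  · intro h3
    exact ⟨n, i, h, hi, h3⟩

theorem tb_length {K : Lang} {x y : List Bool} (h : x.length = y.length) (hx : x ∈ TB K) :
    y ∈ TB K := by
  obtain ⟨m, j, h1, h2, h3⟩ := hx
  exact ⟨m, j, h ▸ h1, h2, h3⟩

/-- The string of the right length. -/
def tbStr (u t : List Bool) : List Bool := List.replicate ((u.length + 1) ^ 2) true ++ t

theorem length_tbStr (u t : List Bool) : (tbStr u t).length = (u.length + 1) ^ 2 + t.length := by
  unfold tbStr
  rw [List.length_append, List.length_replicate]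

/-- One more bit of the census. -/
def TStep (K : Lang) (u t t' : List Bool) : Prop :=
  t.length ≤ u.length ∧
    ((t' = t ++ [true] ∧ tbStr u t ∈ TB K) ∨ (t' = t ++ [false] ∧ tbStr u t ∈ (TB K)ᶜ))

theorem tstep_iff {K : Lang} {u t t' : List Bool} : TStep K u t t' ↔ t.length ≤ u.length ∧
    ∃ b, t' = t ++ [b] ∧
      (bits (u.length + 1) (cnt u.length fun y => y ∈ K))[t.length]? = some b := by
  unfold TStep
  refine and_congr_right fun h => ?_
  have hlt : t.length < (bits (u.length + 1) (cnt u.length fun y => y ∈ K)).length := by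
    rw [length_bits]; omega
  rw [Set.mem_compl_iff, mem_tb_iff (length_tbStr u t) h, List.getElem?_eq_getElem hlt]
  constructor
  · rintro (⟨h1, h2⟩ | ⟨h1, h2⟩)
    · exact ⟨true, h1, h2⟩
    · refine ⟨false, h1, ?_⟩
      cases hb : (bits (u.length + 1) (cnt u.length fun y => y ∈ K))[t.length] with
      | false => rfl
      | true => rw [hb] at h2; exact absurd rfl h2
  · rintro ⟨b, h1, h2⟩
    cases b with
    | true => exact Or.inl ⟨h1, h2⟩
    | false =>
      refine Or.inr ⟨h1, fun h3 => ?_⟩
      rw [h2] at h3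
      simp at h3

theorem treach_prefix {K : Lang} {u t : List Bool}
    (h : Relation.ReflTransGen (TStep K u) [] t) :
    t <+: bits (u.length + 1) (cnt u.length fun y => y ∈ K) := by
  induction h with
  | refl => exact List.nil_prefix
  | tail hab hbc ih =>
    rename_i b c
    obtain ⟨h1, x, rfl, h2⟩ := tstep_iff.1 hbc
    have hlt : b.length < (bits (u.length + 1) (cnt u.length fun y => y ∈ K)).length := by
      rw [length_bits]; omega
    rw [List.getElem?_eq_getElem hlt, Option.some_inj] at h2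
    have h3 := List.prefix_iff_eq_take.1 ih
    have h4 : b ++ [x] = (bits (u.length + 1) (cnt u.length fun y => y ∈ K)).take
        (b.length + 1) := by
      rw [List.take_add_one, ← h3, List.getElem?_eq_getElem hlt, h2]
      rfl
    rw [h4]
    exact List.take_prefix _ _

theorem treach_take {K : Lang} {u : List Bool} (i : ℕ) (hi : i ≤ u.length + 1) :
    Relation.ReflTransGen (TStep K u) []
      ((bits (u.length + 1) (cnt u.length fun y => y ∈ K)).take i) := by
  induction i with
  | zero => rw [List.take_zero]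
  | succ i ih =>
    have hlt : i < (bits (u.length + 1) (cnt u.length fun y => y ∈ K)).length := by
      rw [length_bits]; omega
    have hl : ((bits (u.length + 1) (cnt u.length fun y => y ∈ K)).take i).length = i := by
      rw [List.length_take, length_bits]; omega
    refine (ih (by omega)).tail (tstep_iff.2 ⟨by rw [hl]; omega,
      (bits (u.length + 1) (cnt u.length fun y => y ∈ K))[i], ?_, ?_⟩)
    · rw [List.take_add_one, List.getElem?_eq_getElem hlt]
      rfl
    · rw [hl, List.getElem?_eq_getElem hlt]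

theorem treach_iff {K : Lang} {u t : List Bool} (ht : t.length = u.length + 1) :
    Relation.ReflTransGen (TStep K u) [] t ↔
      t = bits (u.length + 1) (cnt u.length fun y => y ∈ K) := by
  constructor
  · intro h
    refine (treach_prefix h).eq_of_length ?_
    rw [ht, length_bits]
  · rintro rfl
    have := treach_take (K := K) (u := u) (u.length + 1) le_rfl
    rwa [List.take_of_length_le (by rw [length_bits])] at this

theorem nexp_tstep {K : Lang} (h1 : TB K ∈ NEXPLang O) (h2 : (TB K)ᶜ ∈ NEXPLang O) :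
    NEXP O fun e : Fin 3 → List Bool => TStep K (e 0) (e 1) (e 2) := by
  -- u, t, t' | a, b, m
  have h3 : NEXP O fun e : Fin 6 → List Bool => ((e 1).length ≤ (e 0).length ∧
      ((e 3).length = 1 * (e 0).length + 1 ∧ ((e 4).length = (e 3).length ^ 2 + 0 ∧
      e 5 = e 4 ++ e 1))) ∧
      ((e 2 = e 1 ++ [true] ∧ e 5 ∈ TB K) ∨ (e 2 = e 1 ++ [false] ∧ e 5 ∈ (TB K)ᶜ)) :=
    ((nexp_lenLe 1 0).and ((nexp_lin 1 1 0 3).and ((nexp_powAdd 2 0 3 4).and
      (nexp_append 4 1 5)))).and (((nexp_snoc true 1 2).and (nexp_mem h1 5)).or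
        ((nexp_snoc false 1 2).and (nexp_mem h2 5)))
  have h4 := nexp_exN (k := 3) (m := 3) (R := fun e z => ((e 1).length ≤ (e 0).length ∧
      ((z 0).length = 1 * (e 0).length + 1 ∧ ((z 1).length = (z 0).length ^ 2 + 0 ∧
      z 2 = z 1 ++ e 1))) ∧
      ((e 2 = e 1 ++ [true] ∧ z 2 ∈ TB K) ∨ (e 2 = e 1 ++ [false] ∧ z 2 ∈ (TB K)ᶜ))) h3
    (g := fun n => (n + 1) ^ 2 + n)
    (((PolyB.id.add (PolyB.const 1)).pow 2).add PolyB.id)
    (fun m n h => Nat.add_le_add (Nat.pow_le_pow_left (Nat.succ_le_succ h) 2) h) (by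
      rintro e z ⟨⟨a1, a2, a3, a4⟩, -⟩ j
      have l0 := len_le_size e 0
      have l1 := len_le_size e 1
      have b4 := congrArg List.length a4
      rw [List.length_append] at b4
      have b3 : (z 1).length ≤ (size e + 1) ^ 2 := by
        rw [a3, Nat.add_zero, a2]
        exact Nat.pow_le_pow_left (by omega) 2
      have b5 : size e + 1 ≤ (size e + 1) ^ 2 := Nat.le_self_pow (by norm_num) _
      show _ ≤ (size e + 1) ^ 2 + size e
      fin_cases j
      · show (z 0).length ≤ _; omega
      · show (z 1).length ≤ _; omega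
      · show (z 2).length ≤ _; omega)
  refine h4.congr fun e => ?_
  constructor
  · rintro ⟨z, ⟨a1, a2, a3, a4⟩, a5⟩
    have b4 := congrArg List.length a4
    rw [List.length_append] at b4
    have b5 : (z 2).length = (tbStr (e 0) (e 1)).length := by
      rw [b4, length_tbStr, a3, a2]
      ring
    refine ⟨a1, ?_⟩
    rcases a5 with ⟨a5, a6⟩ | ⟨a5, a6⟩
    · exact Or.inl ⟨a5, tb_length b5 a6⟩
    · exact Or.inr ⟨a5, fun h => a6 (tb_length b5.symm h)⟩
  · rintro ⟨a1, a2⟩
    refine ⟨![List.replicate ((e 0).length + 1) true,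
      List.replicate (((e 0).length + 1) ^ 2) true, tbStr (e 0) (e 1)], ⟨a1, ?_, ?_, rfl⟩, a2⟩
    · show (List.replicate ((e 0).length + 1) true).length = 1 * (e 0).length + 1
      rw [List.length_replicate]; ring
    · show (List.replicate (((e 0).length + 1) ^ 2) true).length =
        (List.replicate ((e 0).length + 1) true).length ^ 2 + 0
      simp only [List.length_replicate, Nat.add_zero]

/-- PROOF. `TB K` and `(TB K)ᶜ` are in `POracle` (`tb_mem`, `LibBHN.poracle_compl`) and depend
only on the length, so both are in `NEXPLang O`; for `K` in the class. Step relation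
`S u t t'` (`u` has length `n`): `t.length ≤ u.length` and there is `m` with
`m.length = (u.length + 1) ^ 2 + t.length` and (`t' = t ++ [true]` and `m ∈ TB K`) or
(`t' = t ++ [false]` and `m ∈ (TB K)ᶜ`). By `nexp_reach` (use `Fin 3`, see
`LibQry85.VPnexp`, `VpnStep`) '`t` of length `n + 1` is reached from `[]`' is in the class, and it
says `t = bits (n + 1) (cnt n K)`. Then `x ∉ K` iff there is such a `t` with
`∃ n, t.length = n + 1 ∧ val t ≤ cnt n (fun y => y ∈ K ∧ y ≠ x)` (see
`LibSpec30.enough_census` for this part). -/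
theorem tally_closed (hT : ∀ L ∈ POracle (NEXPLang O),
    (∀ x y : List Bool, x.length = y.length → x ∈ L → y ∈ L) → L ∈ NEXPLang O) :
    ∀ L ∈ NEXPLang O, Lᶜ ∈ NEXPLang O := by
  intro L hL
  have h1 : TB L ∈ NEXPLang O := hT _ (tb_mem hL) fun x y h hx => tb_length h hx
  have h2 : (TB L)ᶜ ∈ NEXPLang O := hT _ (poracle_compl (tb_mem hL)) fun x y h hx hy =>
    hx (tb_length h.symm hy)
  have h3 := nexp_reach (k := 1) (S := fun (e : Fin 1 → List Bool) a b => TStep L (e 0) a b)
    (nexp_tstep h1 h2) (g := fun n => n + 1) (PolyB.id.add (PolyB.const 1))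
    (fun m n h => Nat.succ_le_succ h) (by
      rintro e a b ⟨h, h'⟩
      have l0 := len_le_size e 0
      show b.length ≤ size e + 1
      rcases h' with ⟨rfl, -⟩ | ⟨rfl, -⟩
      · rw [List.length_append, List.length_singleton]; omega
      · rw [List.length_append, List.length_singleton]; omega)
  have h4 : NEXP O fun e : Fin 2 → List Bool => e 1 ∈ L ∧ e 1 ≠ e 0 :=
    (nexp_mem hL 1).and (nexp_ne 1 0)
  have h5 := nexp_count (k := 1) (R := fun e y => y ∈ L ∧ y ≠ e 0) h4
  have h5' : NEXP O fun e : Fin 2 → List Bool => ∃ n, (e 1).length = n + 1 ∧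
      val (e 1) ≤ cnt n fun y => y ∈ L ∧ y ≠ e 0 := h5
  have h6 : NEXP O fun e : Fin 3 → List Bool => ∃ n, (e 2).length = n + 1 ∧
      val (e 2) ≤ cnt n fun y => y ∈ L ∧ y ≠ e 0 := by
    refine (h5'.reindex ![0, 2]).congr fun e => ?_
    simp
  have h7 : NEXP O fun e : Fin 3 → List Bool => (e 1 = [] ∧
      (e 2).length = 1 * (e 0).length + 1) ∧
      (Relation.ReflTransGen (TStep L (e 0)) (e 1) (e 2) ∧
      ∃ n, (e 2).length = n + 1 ∧ val (e 2) ≤ cnt n fun y => y ∈ L ∧ y ≠ e 0) :=
    ((nexp_const [] 1).and (nexp_lin 1 1 0 2)).and (h3.and h6)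
  have h8 := nexp_ex2 (k := 1) (R := fun (e : Fin 1 → List Bool) s t => (s = [] ∧
      t.length = 1 * (e 0).length + 1) ∧
      (Relation.ReflTransGen (TStep L (e 0)) s t ∧
      ∃ n, t.length = n + 1 ∧ val t ≤ cnt n fun y => y ∈ L ∧ y ≠ e 0)) h7
    (g := fun n => n + 1) (PolyB.id.add (PolyB.const 1)) (fun m n h => Nat.succ_le_succ h) (by
      rintro e s t ⟨⟨rfl, h⟩, -⟩
      have l0 := len_le_size e 0
      exact ⟨Nat.zero_le _, by show t.length ≤ size e + 1; omega⟩)
  show NEXP O fun e : Fin 1 → List Bool => e 0 ∈ Lᶜ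
  refine h8.congr fun e => ?_
  have hN : cnt (e 0).length (fun y => y ∈ L) < 2 ^ ((e 0).length + 1) := by
    have h9 := cnt_le (e 0).length (fun y => y ∈ L)
    have h10 : 0 < 2 ^ (e 0).length := by positivity
    rw [pow_succ]
    omega
  constructor
  · rintro ⟨s, t, ⟨rfl, h9⟩, h10, n, h11, h12⟩ hx
    have ht : t.length = (e 0).length + 1 := by omega
    rw [treach_iff ht] at h10
    have hn : n = (e 0).length := by omega
    subst hn
    rw [h10, val_bits hN] at h12
    have h13 := cnt_mem (P := fun y => y ∈ L) hx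
    omega
  · intro hx
    have hl : (bits ((e 0).length + 1) (cnt (e 0).length fun y => y ∈ L)).length =
        (e 0).length + 1 := length_bits _ _
    refine ⟨[], bits ((e 0).length + 1) (cnt (e 0).length fun y => y ∈ L), ⟨rfl, ?_⟩,
      (treach_iff hl).2 rfl, (e 0).length, hl, ?_⟩
    · rw [hl]; ring
    · rw [val_bits hN, cnt_notMem (P := fun y => y ∈ L) hx]

end Pool.Agent.LibDown92
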