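import Pool.Agent.LibDown92.DecQ
import Pool.Agent.LibSpec30.Defs

/-!
[TD P9] Lower bounds for the census by leading bits.
-/

namespace Pool.Agent.LibDown92

open Function Pool.Agent.LibNexp Pool.Agent.LibBHN Pool.Agent.LibDual85

variable {O : List Bool → Bool}

/-- `u = β ++ a`, where `β` of length `j` is `n` in binary and `a` gives the leading `q j` bits
of a lower bound for the number of strings of length `n` in `L`. -/
def TopR (L : Lang) (q : ℕ) (ℓ : ℕ) (u : List Bool) : Prop :=
  ∃ (j : ℕ) (β a : List Bool), ℓ = 2 ^ j ∧ β.length = j ∧ a.length = q * j ∧ u = β ++ a ∧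
    ∃ r, val β + 1 = q * j + r ∧ val a * 2 ^ r ≤ cnt (val β) fun y => y ∈ L

/-- PROOF. By `nexp_exN` there are `w` (length `j`), `β`, `a`, `y` (length `val β`,
`nexp_valLen`), `z` (zeros, length `r`), `s = z ++ a`, with `|e 0| = 2 ^ |w|` (`nexp_twoPow`),
`|β| = |w|`, `|a| = q |w|`, `e 1 = β ++ a`, `1 * |y| + 1 = |s|`, and `∃ n, s.length = n + 1 ∧
val s ≤ cnt n (· ∈ L)` from `nexp_count`. (`val (z ++ a) = val a * 2 ^ |z|`: `val_app`.) -/
theorem nexp_topR {L : Lang} (hL : L ∈ NEXPLang O) (q : ℕ) :
    NEXP O fun e : Fin 2 → List Bool => TopR L q (e 0).length (e 1) := by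
  have hc : NEXP O fun e : Fin 1 → List Bool => ∃ n, (e 0).length = n + 1 ∧
      val (e 0) ≤ cnt n fun y => y ∈ L := by
    have := nexp_count (O := O) (k := 0) (R := fun _ y => y ∈ L) (nexp_mem hL _)
    exact this
  -- ℓ, u | β, a, y, z, s
  have h1 : NEXP O fun e : Fin 7 → List Bool => (((e 0).length = 2 ^ (e 2).length ∧
      (e 3).length = q * (e 2).length + 0) ∧ (e 1 = e 2 ++ e 3 ∧ val (e 2) = (e 4).length)) ∧
      ((e 5 = (e 5).flatMap (fun _ => [false]) ∧ e 6 = e 5 ++ e 3) ∧
      ((e 6).length = 1 * (e 4).length + 1 ∧ ∃ n, (e 6).length = n + 1 ∧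
        val (e 6) ≤ cnt n fun y => y ∈ L)) :=
    (((nexp_twoPow 2 0).and (nexp_lin q 0 2 3)).and ((nexp_append 2 3 1).and
      (nexp_valLen 2 4))).and (((nexp_zeros 5).and (nexp_append 5 3 6)).and
      ((nexp_lin 1 1 4 6).and (hc.reindex ![6])))
  refine (nexp_exN (k := 2) (m := 5) (R := fun e z => (((e 0).length = 2 ^ (z 0).length ∧
      (z 1).length = q * (z 0).length + 0) ∧ (e 1 = z 0 ++ z 1 ∧ val (z 0) = (z 2).length)) ∧
      ((z 3 = (z 3).flatMap (fun _ => [false]) ∧ z 4 = z 3 ++ z 1) ∧
      ((z 4).length = 1 * (z 2).length + 1 ∧ ∃ n, (z 4).length = n + 1 ∧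
        val (z 4) ≤ cnt n fun y => y ∈ L))) h1 (g := fun n => n + 1) PolyB.id.succ
      (fun a b hab => Nat.succ_le_succ hab) ?_).congr fun e => ?_
  · rintro e z ⟨⟨⟨h2, h3⟩, h4, h5⟩, ⟨h6, h7⟩, h8, -⟩ j
    have e0 := len_le_size e 0
    have e1 := len_le_size e 1
    have h9 := val_lt (z 0)
    have h10 : (e 1).length = (z 0).length + (z 1).length := by rw [h4, List.length_append]
    have h11 : (z 4).length = (z 3).length + (z 1).length := by rw [h7, List.length_append]
    show (z j).length ≤ size e + 1
    fin_cases j
    · show (z 0).length ≤ _; omega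
    · show (z 1).length ≤ _; omega
    · show (z 2).length ≤ _; omega
    · show (z 3).length ≤ _; omega
    · show (z 4).length ≤ _; omega
  · constructor
    · rintro ⟨z, ⟨⟨h2, h3⟩, h4, h5⟩, ⟨h6, h7⟩, h8, n, h9, h10⟩
      refine ⟨(z 0).length, z 0, z 1, h2, rfl, by omega, h4, (z 3).length, ?_, ?_⟩
      · have h11 : (z 4).length = (z 3).length + (z 1).length := by rw [h7, List.length_append]
        omega
      · have h11 : n = val (z 0) := by omega
        rw [h11] at h10
        have h12 : z 3 = List.replicate (z 3).length false := by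
          rw [← CountAux.flatMap_false]
          exact h6
        have h13 : val (z 4) = val (z 1) * 2 ^ (z 3).length := by
          rw [h7, h12, val_false, List.length_replicate, mul_comm]
        rw [← h13]
        exact h10
    · rintro ⟨j, β, a, h2, h3, h4, h5, r, h6, h7⟩
      refine ⟨![β, a, List.replicate (val β) true, List.replicate r false,
        List.replicate r false ++ a], ⟨⟨?_, ?_⟩, ?_, ?_⟩, ⟨?_, rfl⟩, ?_, val β, ?_, ?_⟩
      · show (e 0).length = 2 ^ β.length
        rw [h3, h2]
      · show a.length = q * β.length + 0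
        rw [h3, h4, add_zero]
      · exact h5
      · show val β = (List.replicate (val β) true).length
        simp
      · show List.replicate r false = (List.replicate r false).flatMap (fun _ => [false])
        rw [CountAux.flatMap_false, List.length_replicate]
      · show (List.replicate r false ++ a).length = 1 * (List.replicate (val β) true).length + 1
        rw [List.length_append, List.length_replicate, List.length_replicate, h4]
        omega
      · show (List.replicate r false ++ a).length = val β + 1
        rw [List.length_append, List.length_replicate, h4]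
        omega
      · show val (List.replicate r false ++ a) ≤ cnt (val β) fun y => y ∈ L
        rw [val_false, mul_comm]
        exact h7

end Pool.Agent.LibDown92
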