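import Pool.Agent.LibDown92.DecQ
import Pool.Agent.LibDown92.TopR
import Pool.Agent.LibSpec30.Defs

/-!
[TD P10] Closure under complement of doubly exponential time saves `q log n` bits of advice.
-/

namespace Pool.Agent.LibDown92

open Function Pool.Agent.LibNexp Pool.Agent.LibBHN Pool.Agent.LibDual85
open Pool.Agent.LibSpec30 (Enough)

variable {O : List Bool → Bool}

theorem p10_sq (j : ℕ) : j ^ 2 + 2 ≤ 4 * 2 ^ j := by
  induction j with
  | zero => norm_num
  | succ j ih =>
    rw [pow_succ 2 j]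
    nlinarith [sq_nonneg ((j : ℤ) - 1), Nat.zero_le j, (by
      have h := sq_nonneg ((j : ℤ) - 1)
      have h2 : (2 * (j : ℤ)) ≤ (j : ℤ) ^ 2 + 1 := by linarith [h, (by ring : ((j : ℤ) - 1) ^ 2 = (j : ℤ) ^ 2 - 2 * j + 1)]
      exact_mod_cast h2 : 2 * j ≤ j ^ 2 + 1)]

/-- If `q (log n + 1)` is large, `n` is small. -/
theorem p10_small {n q : ℕ} (h : n + 1 < q * (Nat.log 2 (n + 1) + 1)) : n + 1 ≤ 8 * q ^ 2 := by
  have h1 : 2 ^ Nat.log 2 (n + 1) ≤ n + 1 := Nat.pow_log_le_self 2 (by omega)
  have h2 := p10_sq (Nat.log 2 (n + 1) + 1)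
  rw [pow_succ 2 (Nat.log 2 (n + 1))] at h2
  set j := Nat.log 2 (n + 1) + 1 with hj
  by_contra hcon
  have hcon' : 8 * q ^ 2 < n + 1 := not_le.1 hcon
  have h3 : j ^ 2 ≤ 8 * (n + 1) := by omega
  have h4 : (n + 1) * (n + 1) < (q * j) * (q * j) := Nat.mul_self_lt_mul_self h
  have h5 : (q * j) * (q * j) = q ^ 2 * j ^ 2 := by ring
  have h6 : q ^ 2 * j ^ 2 ≤ q ^ 2 * (8 * (n + 1)) := Nat.mul_le_mul_left _ h3
  have h7 : q ^ 2 * (8 * (n + 1)) = 8 * q ^ 2 * (n + 1) := by ring
  have h8 : 8 * q ^ 2 * (n + 1) ≤ (n + 1) * (n + 1) := Nat.mul_le_mul_right _ hcon'.le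
  omega

theorem p10_ones (k : ℕ) : val (List.replicate k true) + 1 = 2 ^ k := by
  induction k with
  | zero => rfl
  | succ k ih =>
    rw [List.replicate_succ, val, pow_succ]
    simp only [Bool.toNat_true]
    omega

theorem p10_flat (u : List Bool) : u.flatMap (fun _ => [true]) = List.replicate u.length true := by
  induction u with
  | nil => rfl
  | cons b u ih => rw [List.flatMap_cons, ih]; rfl

theorem nexp_p10_ones {k : ℕ} (i : Fin k) :
    NEXP O fun e : Fin k → List Bool => e i = (e i).flatMap fun _ => [true] := by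
  refine ((nexp_subst (O := O) (fun _ => [true]) (fun _ => []) []).reindex
    ![i, i, i]).congr fun e => ?_
  simp only [Matrix.cons_val_zero, Matrix.cons_val_one, Matrix.cons_val]
  have : (e i).flatMap (fun _ => ([] : List Bool)) = [] := by simp
  rw [this, List.append_nil, List.append_nil]

theorem p10_top_iff {L : Lang} {q j n r : ℕ} {β a : List Bool} (hβ : β.length = j)
    (hn : val β = n) (ha : a.length = q * j) (hr : n + 1 = q * j + r) :
    TopR L q (2 ^ j) (β ++ a) ↔ val a * 2 ^ r ≤ cnt n fun y => y ∈ L := by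
  constructor
  · rintro ⟨j', β', a', h1, h2, h3, h4, r', h5, h6⟩
    have h7 : j = j' := Nat.pow_right_injective (le_refl 2) h1
    subst h7
    obtain ⟨h8, h9⟩ := List.append_inj h4 (by rw [hβ, h2])
    subst h8
    subst h9
    have h10 : r' = r := by omega
    subst h10
    rw [hn] at h6
    exact h6
  · intro h
    exact ⟨j, β, a, rfl, hβ, ha, rfl, r, by rw [hn, hr], by rw [hn]; exact h⟩

/-- The relation of the first mode. -/
def P10R1 (L : Lang) (q : ℕ) (x b : List Bool) (z : Fin 7 → List Bool) : Prop :=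
  ((val (z 0) = x.length ∧ (z 0).length = 1 * Nat.log 2 (x.length + 1) + 1) ∧
    ((z 1).length = q * (z 0).length + 0 ∧ (z 2).length = 2 ^ (z 0).length)) ∧
  (((z 3 = z 0 ++ z 1 ∧ TopR L q (z 2).length (z 3)) ∧
    ((z 5).length ≤ (z 1).length ∧ (z 6).length ≤ (z 3).length)) ∧
  ((z 1 = (z 1).flatMap (fun _ => [true]) ∨ ((Suc (z 1) (z 5) ∧ z 6 = z 0 ++ z 5) ∧
    ((∃ j, (z 2).length = 2 ^ j ∧ (z 6).length = (q + 1) * j) ∧ ¬ TopR L q (z 2).length (z 6)))) ∧
  ((z 4 = b ++ z 1 ∧ (z 4).length = 1 * x.length + 1) ∧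
    ∃ n, (z 4).length = n + 1 ∧ val (z 4) ≤ cnt n fun y => y ∈ L ∧ y ≠ x)))

/-- The relation of the second mode. -/
def P10R2 (L : Lang) (x b : List Bool) : Prop :=
  b.length = 1 * x.length + 1 ∧ ∃ n, b.length = n + 1 ∧ val b ≤ cnt n fun y => y ∈ L ∧ y ≠ x

theorem nexp_p10_cnt {L : Lang} (hL : L ∈ NEXPLang O) :
    NEXP O fun e : Fin 2 → List Bool => ∃ n, (e 1).length = n + 1 ∧
      val (e 1) ≤ cnt n fun y => y ∈ L ∧ y ≠ e 0 := by
  have h1 : NEXP O fun e : Fin 2 → List Bool => e 1 ∈ L ∧ e 1 ≠ e 0 :=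
    (nexp_mem hL 1).and (nexp_ne 1 0)
  exact nexp_count (k := 1) (R := fun e y => y ∈ L ∧ y ≠ e 0) h1

theorem nexp_P10R1 (hC : Closed O fun n => 2 ^ n) {L : Lang} (hL : L ∈ NEXPLang O) (q : ℕ) :
    NEXP O fun e : Fin 2 → List Bool => ∃ z, P10R1 L q (e 0) (e 1) z := by
  have hs : StrictMono (fun n : ℕ => 2 ^ n) := fun a b h => Nat.pow_lt_pow_right (by norm_num) h
  have hg : Graph O fun n => 2 ^ n := nexp_twoPow 0 1
  have hT := nexp_topR hL q
  have hD := dec_all hs hg (dec_one hs hg hC) (q + 1) _ hT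
  have h1 : NEXP O fun e : Fin 9 → List Bool =>
      ((val (e 2) = (e 0).length ∧ (e 2).length = 1 * Nat.log 2 ((e 0).length + 1) + 1) ∧
        ((e 3).length = q * (e 2).length + 0 ∧ (e 4).length = 2 ^ (e 2).length)) ∧
      (((e 5 = e 2 ++ e 3 ∧ TopR L q (e 4).length (e 5)) ∧
        ((e 7).length ≤ (e 3).length ∧ (e 8).length ≤ (e 5).length)) ∧
      ((e 3 = (e 3).flatMap (fun _ => [true]) ∨ ((Suc (e 3) (e 7) ∧ e 8 = e 2 ++ e 7) ∧
        ((∃ j, (e 4).length = 2 ^ j ∧ (e 8).length = (q + 1) * j) ∧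
          ¬ TopR L q (e 4).length (e 8)))) ∧
      ((e 6 = e 1 ++ e 3 ∧ (e 6).length = 1 * (e 0).length + 1) ∧
        ∃ n, (e 6).length = n + 1 ∧ val (e 6) ≤ cnt n fun y => y ∈ L ∧ y ≠ e 0))) :=
    (((nexp_valLen 2 0).and (nexp_logMul 1 1 0 2)).and
      ((nexp_lin q 0 2 3).and (nexp_twoPow 2 4))).and
    ((((nexp_append 2 3 5).and (hT.reindex ![4, 5])).and ((nexp_lenLe 7 3).and
      (nexp_lenLe 8 5))).and
    (((nexp_p10_ones 3).or (((nexp_suc 3 7).and (nexp_append 2 7 8)).and
      (hD.reindex ![4, 8]))).and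
    (((nexp_append 1 3 6).and (nexp_lin 1 1 0 6)).and ((nexp_p10_cnt hL).reindex ![0, 6]))))
  refine nexp_exN (k := 2) (m := 7) (R := fun e z => P10R1 L q (e 0) (e 1) z) h1
    (g := fun n => (q + 2) * (n + 1)) ((PolyB.const _).mul PolyB.id.succ)
    (fun a b hab => Nat.mul_le_mul_left _ (Nat.succ_le_succ hab)) ?_
  rintro e z ⟨⟨⟨h2, h3⟩, h4, h5⟩, ⟨⟨h6, -⟩, h7, h8⟩, -, ⟨-, h9⟩, -⟩ i
  have e0 := len_le_size e 0
  have hlog : 2 ^ Nat.log 2 ((e 0).length + 1) ≤ (e 0).length + 1 :=
    Nat.pow_log_le_self 2 (by omega)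
  have hlog2 : Nat.log 2 ((e 0).length + 1) < (e 0).length + 1 :=
    Nat.log_lt_of_lt_pow (by omega) Nat.lt_two_pow_self
  have h10 : (z 0).length ≤ size e + 1 := by omega
  have h11 : (z 1).length ≤ q * (size e + 1) := by
    rw [h4, add_zero]
    exact Nat.mul_le_mul_left q h10
  have h12 : (z 2).length ≤ 2 * (size e + 1) := by
    rw [h5, h3, one_mul, pow_succ]
    omega
  have h13 : (z 3).length = (z 0).length + (z 1).length := by rw [h6, List.length_append]
  have h14 : (q + 2) * (size e + 1) = q * (size e + 1) + 2 * (size e + 1) := by ring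
  have h15 : 0 ≤ q * (size e + 1) := Nat.zero_le _
  show (z i).length ≤ (q + 2) * (size e + 1)
  rw [h14]
  fin_cases i
  · show (z 0).length ≤ _; omega
  · show (z 1).length ≤ _; omega
  · show (z 2).length ≤ _; omega
  · show (z 3).length ≤ _; omega
  · show (z 4).length ≤ _; omega
  · show (z 5).length ≤ _; omega
  · show (z 6).length ≤ _; omega

theorem nexp_P10R2 {L : Lang} (hL : L ∈ NEXPLang O) :
    NEXP O fun e : Fin 2 → List Bool => P10R2 L (e 0) (e 1) :=
  (nexp_lin 1 1 0 1).and (nexp_p10_cnt hL)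

theorem p10_N (L : Lang) (n : ℕ) : cnt n (fun y => y ∈ L) < 2 ^ (n + 1) := by
  have h4 := cnt_le n (fun y => y ∈ L)
  have h5 : 0 < 2 ^ n := by positivity
  rw [pow_succ]
  omega

theorem p10_mem {L : Lang} {x : List Bool} {N : ℕ} (hN : N = cnt x.length (fun y => y ∈ L))
    (h : N ≤ cnt x.length fun y => y ∈ L ∧ y ≠ x) : x ∉ L := by
  intro hx
  have h9 := cnt_mem (P := fun y => y ∈ L) hx
  omega

/-- Soundness and completeness of the second mode. -/
theorem p10_R2 {L : Lang} {x : List Bool} :
    P10R2 L x (bits (x.length + 1) (cnt x.length fun y => y ∈ L)) ↔ x ∉ L := by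
  unfold P10R2
  rw [length_bits, val_bits (p10_N L _)]
  constructor
  · rintro ⟨-, n, h6, h7⟩
    have h8 : n = x.length := by omega
    subst h8
    exact p10_mem rfl h7
  · intro hx
    refine ⟨by ring, x.length, rfl, ?_⟩
    rw [cnt_notMem (P := fun y => y ∈ L) hx]

/-- The advice in the first mode. -/
theorem p10_R1 {L : Lang} {x : List Bool} {q r : ℕ}
    (hr : x.length + 1 = q * (Nat.log 2 (x.length + 1) + 1) + r) :
    (∃ z, P10R1 L q x ((bits (x.length + 1) (cnt x.length fun y => y ∈ L)).take r) z) ↔ x ∉ L := by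
  set n := x.length with hn
  set N := cnt n (fun y => y ∈ L) with hN
  set j := Nat.log 2 (n + 1) + 1 with hj
  set F := bits (n + 1) N with hF
  have hNlt : N < 2 ^ (n + 1) := p10_N L n
  have hFlen : F.length = n + 1 := length_bits _ _
  have hFval : val F = N := val_bits hNlt
  have hrn : r ≤ n + 1 := by omega
  have hb : (F.take r).length = r := by
    rw [List.length_take, hFlen]
    omega
  have ha : (F.drop r).length = q * j := by
    rw [List.length_drop, hFlen]
    omega
  have hcat : F.take r ++ F.drop r = F := List.take_append_drop r F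
  have hNab : N = val (F.take r) + 2 ^ r * val (F.drop r) := by
    rw [← hFval]
    conv_lhs => rw [← hcat]
    rw [val_app, hb]
  have hblt : val (F.take r) < 2 ^ r := by
    have := val_lt (F.take r)
    rwa [hb] at this
  have halt : val (F.drop r) < 2 ^ (q * j) := by
    have := val_lt (F.drop r)
    rwa [ha] at this
  have hpos : 0 < 2 ^ r := by positivity
  constructor
  · rintro ⟨z, ⟨⟨h2, h3⟩, h4, h5⟩, ⟨⟨h6, h7⟩, -⟩, h8, ⟨h9, h10⟩, n', h11, h12⟩
    rw [one_mul] at h3
    have h3' : (z 0).length = j := h3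
    rw [add_zero, h3'] at h4
    rw [h3'] at h5
    rw [h5, h6, p10_top_iff h3' h2 h4 hr] at h7
    have h13 : val (z 1) ≤ val (F.drop r) := by
      by_contra hcon
      have h14 : (val (F.drop r) + 1) * 2 ^ r ≤ val (z 1) * 2 ^ r :=
        Nat.mul_le_mul_right _ (not_le.1 hcon)
      have h15 : (val (F.drop r) + 1) * 2 ^ r = 2 ^ r * val (F.drop r) + 2 ^ r := by ring
      have h7' : val (z 1) * 2 ^ r ≤ N := h7
      omega
    have h14 : val (F.drop r) ≤ val (z 1) := by
      rcases h8 with h8 | ⟨⟨h15, h16⟩, -, h17⟩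
      · rw [p10_flat] at h8
        have h18 := p10_ones (z 1).length
        rw [← h8, h4] at h18
        omega
      · have h18 : (z 5).length = q * j := by rw [h15.1, h4]
        rw [h5, h16, p10_top_iff h3' h2 h18 hr, h15.2] at h17
        have h17' : N < (val (z 1) + 1) * 2 ^ r := not_le.1 h17
        by_contra hcon
        have h19 : (val (z 1) + 1) * 2 ^ r ≤ val (F.drop r) * 2 ^ r :=
          Nat.mul_le_mul_right _ (not_le.1 hcon)
        have h20 : val (F.drop r) * 2 ^ r = 2 ^ r * val (F.drop r) := by ring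
        omega
    have h15 : z 1 = F.drop r := val_inj (by rw [h4, ha]) (le_antisymm h13 h14)
    rw [h15, hcat] at h9
    rw [h9, hFlen] at h11
    have h16 : n' = n := by omega
    subst h16
    rw [h9, hFval] at h12
    exact p10_mem hN h12
  · intro hx
    have hnj : n < 2 ^ j := lt_pow_log n
    have hβ : (bits j n).length = j := length_bits _ _
    have hβv : val (bits j n) = n := val_bits hnj
    have hlast : N ≤ cnt n fun y => y ∈ L ∧ y ≠ x := by
      rw [cnt_notMem (P := fun y => y ∈ L) hx]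
    have htop : TopR L q (2 ^ j) (bits j n ++ F.drop r) := by
      rw [p10_top_iff hβ hβv ha hr, ← hN, mul_comm]
      omega
    by_cases hone : F.drop r = (F.drop r).flatMap (fun _ => [true])
    · refine ⟨![bits j n, F.drop r, List.replicate (2 ^ j) true, bits j n ++ F.drop r, F,
        [], []], ⟨⟨hβv, ?_⟩, ?_, ?_⟩, ⟨⟨rfl, ?_⟩, ?_, ?_⟩, Or.inl hone, ⟨hcat.symm, ?_⟩, n, hFlen, ?_⟩
      · show (bits j n).length = 1 * Nat.log 2 (n + 1) + 1
        rw [hβ, one_mul]
      · show (F.drop r).length = q * (bits j n).length + 0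
        rw [ha, hβ, add_zero]
      · show (List.replicate (2 ^ j) true).length = 2 ^ (bits j n).length
        rw [List.length_replicate, hβ]
      · show TopR L q (List.replicate (2 ^ j) true).length (bits j n ++ F.drop r)
        rw [List.length_replicate]
        exact htop
      · show ([] : List Bool).length ≤ _
        exact Nat.zero_le _
      · show ([] : List Bool).length ≤ _
        exact Nat.zero_le _
      · show F.length = 1 * n + 1
        rw [hFlen, one_mul]
      · show val F ≤ _
        rw [hFval]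
        exact hlast
    · have hlt : val (F.drop r) + 1 < 2 ^ (q * j) := by
        rcases Nat.lt_or_ge (val (F.drop r) + 1) (2 ^ (q * j)) with h | h
        · exact h
        · exfalso
          apply hone
          rw [p10_flat]
          refine val_inj (by rw [List.length_replicate]) ?_
          have := p10_ones (F.drop r).length
          rw [ha] at this ⊢
          omega
      have ha' : (bits (q * j) (val (F.drop r) + 1)).length = q * j := length_bits _ _
      have hav' : val (bits (q * j) (val (F.drop r) + 1)) = val (F.drop r) + 1 := val_bits hlt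
      refine ⟨![bits j n, F.drop r, List.replicate (2 ^ j) true, bits j n ++ F.drop r, F,
        bits (q * j) (val (F.drop r) + 1), bits j n ++ bits (q * j) (val (F.drop r) + 1)],
        ⟨⟨hβv, ?_⟩, ?_, ?_⟩, ⟨⟨rfl, ?_⟩, ?_, ?_⟩, Or.inr ⟨⟨?_, rfl⟩, ⟨j, ?_, ?_⟩, ?_⟩,
        ⟨hcat.symm, ?_⟩, n, hFlen, ?_⟩
      · show (bits j n).length = 1 * Nat.log 2 (n + 1) + 1
        rw [hβ, one_mul]
      · show (F.drop r).length = q * (bits j n).length + 0
        rw [ha, hβ, add_zero]
      · show (List.replicate (2 ^ j) true).length = 2 ^ (bits j n).length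
        rw [List.length_replicate, hβ]
      · show TopR L q (List.replicate (2 ^ j) true).length (bits j n ++ F.drop r)
        rw [List.length_replicate]
        exact htop
      · show (bits (q * j) (val (F.drop r) + 1)).length ≤ (F.drop r).length
        rw [ha', ha]
      · show (bits j n ++ bits (q * j) (val (F.drop r) + 1)).length ≤ (bits j n ++ F.drop r).length
        rw [List.length_append, List.length_append, ha', ha]
      · exact ⟨by rw [show (![bits j n, F.drop r, List.replicate (2 ^ j) true, bits j n ++ F.drop r, F,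
          bits (q * j) (val (F.drop r) + 1), bits j n ++ bits (q * j) (val (F.drop r) + 1)] :
          Fin 7 → List Bool) 5 = bits (q * j) (val (F.drop r) + 1) from rfl, ha']; exact ha.symm, hav'⟩
      · show (List.replicate (2 ^ j) true).length = 2 ^ j
        exact List.length_replicate
      · show (bits j n ++ bits (q * j) (val (F.drop r) + 1)).length = (q + 1) * j
        rw [List.length_append, hβ, ha']
        ring
      · show ¬ TopR L q (List.replicate (2 ^ j) true).length
          (bits j n ++ bits (q * j) (val (F.drop r) + 1))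
        rw [List.length_replicate, p10_top_iff hβ hβv ha' hr, ← hN, hav']
        have h20 : (val (F.drop r) + 1) * 2 ^ r = 2 ^ r * val (F.drop r) + 2 ^ r := by ring
        omega
      · show F.length = 1 * n + 1
        rw [hFlen, one_mul]
      · show val F ≤ _
        rw [hFval]
        exact hlast

/-- PROOF. `j = Nat.log 2 (n + 1) + 1`, so `n < 2 ^ j ≤ 2 * (n + 1)`. Advice at length `n`: if
`q j ≤ n + 1`, the `n + 1 - q j` LOW bits of `N = cnt n (· ∈ L)`, i.e. the first `n + 1 - q j`
entries of `bits (n + 1) N`; otherwise `bits (n + 1) N` (then `n + 1 ≤ c`: for `n` large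
`q (log n + 1) ≤ n + 1`; choose `c` bounding `n + 1` for the finitely many others). The verifier
on `(x, b)`, `n = |x|`: (mode 1) there are `a` of length `q j`, `β` of length `j`, `val β = n`,
`TopR L q (2 ^ j) (β ++ a)`, and [`a` consists of ones (then no larger value) or there is `a'` with
`Suc a a'` and the complemented fact (`dec_all` for `h = fun n => 2 ^ n` and `q + 1`, applied to
`TopR L q`, `u = β ++ a'`)], and `∃ n, (b ++ a).length = n + 1 ∧ val (b ++ a) ≤
cnt n (fun y => y ∈ L ∧ y ≠ x)`; (mode 2) `b.length = n + 1` and `val b ≤ cnt n (y ∈ L ∧ y ≠ x)`.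
Sound for the correct advice: in mode 1 the certified `a` is exactly the leading part, since
`TopR` for `a` and not for `a'` (`val a * 2 ^ r ≤ N < (val a + 1) * 2 ^ r`).
In mode 2 with the correct (mode 1) advice: `b.length = n + 1 - q j < n + 1` unless `q j = 0`.
Use `rel_of_nexp` to get the language `B`. See `LibSpec30.enough_census`. -/
theorem top_savings (hC : Closed O fun n => 2 ^ n) (q : ℕ) :
    Enough O fun n => n - q * Nat.log 2 (n + 1) := by
  intro L hL
  obtain ⟨D, hD, hDC⟩ := rel_of_nexp (C := fun x b => (∃ z, P10R1 L q x b z) ∨ P10R2 L x b)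
    ((nexp_P10R1 hC hL q).or (nexp_P10R2 hL))
  refine ⟨8 * q ^ 2 + 1, D, hD, fun n =>
    if q * (Nat.log 2 (n + 1) + 1) ≤ n + 1 then
      (bits (n + 1) (cnt n fun y => y ∈ L)).take (n + 1 - q * (Nat.log 2 (n + 1) + 1))
    else bits (n + 1) (cnt n fun y => y ∈ L), fun n => ?_, ?_⟩
  · show (if q * (Nat.log 2 (n + 1) + 1) ≤ n + 1 then
      (bits (n + 1) (cnt n fun y => y ∈ L)).take (n + 1 - q * (Nat.log 2 (n + 1) + 1))
      else bits (n + 1) (cnt n fun y => y ∈ L)).length ≤ n - q * Nat.log 2 (n + 1) + (8 * q ^ 2 + 1)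
    have h0 : q * (Nat.log 2 (n + 1) + 1) = q * Nat.log 2 (n + 1) + q := by ring
    by_cases h : q * (Nat.log 2 (n + 1) + 1) ≤ n + 1
    · rw [if_pos h, List.length_take, length_bits]
      omega
    · rw [if_neg h, length_bits]
      have h1 := p10_small (not_le.1 h)
      omega
  · ext x
    show x ∉ L ↔ pair x (if q * (Nat.log 2 (x.length + 1) + 1) ≤ x.length + 1 then
      (bits (x.length + 1) (cnt x.length fun y => y ∈ L)).take
        (x.length + 1 - q * (Nat.log 2 (x.length + 1) + 1))
      else bits (x.length + 1) (cnt x.length fun y => y ∈ L)) ∈ D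
    rw [hDC]
    by_cases h : q * (Nat.log 2 (x.length + 1) + 1) ≤ x.length + 1
    · rw [if_pos h]
      have hr : x.length + 1 = q * (Nat.log 2 (x.length + 1) + 1) +
          (x.length + 1 - q * (Nat.log 2 (x.length + 1) + 1)) := by omega
      constructor
      · intro hx
        exact Or.inl ((p10_R1 hr).2 hx)
      · rintro (h1 | h1)
        · exact (p10_R1 hr).1 h1
        · have h2 := h1.1
          rw [List.length_take, length_bits] at h2
          have h3 : x.length + 1 - q * (Nat.log 2 (x.length + 1) + 1) = x.length + 1 := by omega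
          rw [h3, List.take_of_length_le (by rw [length_bits])] at h1
          exact p10_R2.1 h1
    · rw [if_neg h]
      constructor
      · intro hx
        exact Or.inr (p10_R2.2 hx)
      · rintro (⟨z, ⟨⟨-, h3⟩, h4, -⟩, -, -, ⟨h5, h6⟩, -⟩ | h1)
        · exfalso
          rw [h5, List.length_append, length_bits, h4, h3] at h6
          rw [one_mul] at h6
          omega
        · exact p10_R2.1 h1

end Pool.Agent.LibDown92
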