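import Pool.Agent.LibDual85.Ex
import Pool.Agent.LibDual85.Log
import Pool.Agent.LibDual85.Rev

/-!
Nondeterministic classes with larger time bounds, and their interplay with nondeterministic
exponential time.
-/

namespace Pool.Agent.LibDown92

open Function Pool.Agent.LibNexp Pool.Agent.LibBHN Pool.Agent.LibDual85

variable {O : List Bool → Bool}

/-- Languages recognised in nondeterministic time `2 ^ (h(n) ^ c + c)`. -/
def NH (O : List Bool → Bool) (h : ℕ → ℕ) : Set Lang :=
  {L | ∃ c : ℕ, NTime O (fun n => 2 ^ (h n ^ c + c)) fun e : Fin 1 → List Bool => e 0 ∈ L}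

/-- Existential quantification over long strings. -/
theorem ntime_exists {k : ℕ} {R : (Fin (k + 1) → List Bool) → Prop} (h : NEXP O R)
    {g : ℕ → ℕ} (hbound : ∀ e z, R (app e z) → z.length ≤ g (size e)) :
    ∃ c : ℕ, NTime O (fun n => g n + 2 ^ ((n + g n) ^ c + c))
      fun e : Fin k → List Bool => ∃ z, R (app e z) := by
  obtain ⟨T, ⟨f, ⟨c, hc⟩, hT⟩, hmono, h⟩ := isTest_nexp h
  obtain ⟨p, hp⟩ := h (k + 1) (fun j => j) (fun j => j.2)
  refine ⟨c, .seq (guess k) p, fun e => ?_⟩
  have hσ : ∀ z, update (init e) k (z ++ init e k) = init (app e z) := by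
    intro z
    have : init e k = [] := quiet_init e k le_rfl
    rw [this, List.append_nil, update_init]
  constructor
  · rintro t σ' ⟨t1, t2, τ, -, h1, h2⟩
    rw [run_guess] at h1
    obtain ⟨z, -, rfl⟩ := h1
    rw [hσ] at h2
    have h3 := (hp _ (quiet_init _)).1 _ _ h2
    refine ⟨z, ?_⟩
    have h4 := h3.2
    simpa only [init_apply] using h4
  · rintro ⟨z, hz⟩
    have hz' := hbound e z hz
    obtain ⟨t, ht, h1⟩ := (hp _ (quiet_init (app e z))).2 (by simpa only [init_apply] using hz)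
    refine ⟨z.length + t, init (app e z), ?_, z.length, t, init (app e z), rfl, ?_, h1⟩
    · simp only [init_apply] at ht
      have h3 := hmono (show size (app e z) ≤ size e + g (size e) by rw [size_app]; omega)
      refine Nat.add_le_add hz' (le_trans ht (le_trans h3 (le_trans (hT _) ?_)))
      exact Nat.pow_le_pow_right (by norm_num) (hc _)
    · rw [run_guess]
      exact ⟨z, rfl, (hσ z).symm⟩

/-- A test in a larger class, on a short string. -/
theorem nexp_and_big {W : Lang} {T : ℕ → ℕ}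
    (hW : NTime O T fun e : Fin 1 → List Bool => e 0 ∈ W) {k : ℕ}
    {P : (Fin k → List Bool) → Prop} (hP : NEXP O P) (i : Fin k) {F : ℕ → ℕ} (hF : EP F)
    (hb : ∀ e, P e → T (e i).length ≤ F (size e)) : NEXP O fun e => P e ∧ e i ∈ W := by
  obtain ⟨T₁, hT₁, -, h₁⟩ := isTest_nexp hP
  obtain ⟨p₁, hp₁⟩ := h₁ k (fun j => j) (fun j => j.2)
  obtain ⟨K, p₂, hp₂⟩ := isTest_call (b := k) hW (rs := fun _ => (i : ℕ)) (fun _ => i.2)
  have hseq := hp₁.seq hp₂
  rw [nexp_iff]
  refine ⟨fun n => T₁ n + K * (n + F n + 1), hT₁.add ((EP.const K).mul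
    (((EP.of_poly PolyB.id).add hF).add (EP.const 1))), .seq p₁ p₂, fun e => ?_⟩
  constructor
  · intro t σ' h
    have h2 := ((hseq _ (quiet_init e)).1 _ _ h).2
    simpa only [init_apply] using h2
  · intro he
    obtain ⟨t, ht, h⟩ := (hseq _ (quiet_init e)).2 (by simpa only [init_apply] using he)
    refine ⟨t, _, le_trans ht ?_, h⟩
    have hs : size (fun _ : Fin 1 => e i) = (e i).length := by simp [size]
    simp only [init_apply, hs]
    have h1 := hb e he.1
    have h2 := len_le_size e i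
    exact Nat.add_le_add le_rfl (Nat.mul_le_mul_left _ (by omega))

theorem nh_of_exists {h : ℕ → ℕ} (hh : ∀ n, n ≤ h n) {R : List Bool → List Bool → Prop}
    (hR : NEXP O fun e : Fin 2 → List Bool => R (e 0) (e 1)) {a : ℕ}
    (hb : ∀ u y, R u y → y.length ≤ a * h u.length + a) : {u | ∃ y, R u y} ∈ NH O h := by
  obtain ⟨c, hc⟩ := ntime_exists (k := 1) (R := fun e => R (e 0) (e 1)) hR
    (g := fun n => a * h n + a) (fun e z hz => by
      have h1 := hb _ _ hz
      have h2 : (app e z 0).length = size e := by simp [size]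
      rw [← h2]
      exact h1)
  obtain ⟨c', hc'⟩ : PolyB fun m => (m + (a * m + a)) ^ c + c + (a * m + a) + 1 :=
    ((((PolyB.id.add (((PolyB.const a).mul PolyB.id).add (PolyB.const a))).comp_pow c)).add
      (((PolyB.const a).mul PolyB.id).add (PolyB.const a))).add (PolyB.const 1)
  refine ⟨c', hc.mono fun n => ?_⟩
  have h1 := hc' (h n)
  have h2 : (n + (a * h n + a)) ^ c ≤ (h n + (a * h n + a)) ^ c :=
    Nat.pow_le_pow_left (by have := hh n; omega) c
  have h3 : a * h n + a ≤ 2 ^ (a * h n + a) := Nat.lt_two_pow_self.le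
  have h4 : 2 ^ ((n + (a * h n + a)) ^ c + c) ≤ 2 ^ ((h n + (a * h n + a)) ^ c + c + (a * h n + a)) :=
    Nat.pow_le_pow_right (by norm_num) (by omega)
  have h5 : 2 ^ (a * h n + a) ≤ 2 ^ ((h n + (a * h n + a)) ^ c + c + (a * h n + a)) :=
    Nat.pow_le_pow_right (by norm_num) (by omega)
  have h6 : 2 ^ ((h n + (a * h n + a)) ^ c + c + (a * h n + a) + 1) ≤ 2 ^ (h n ^ c' + c') :=
    Nat.pow_le_pow_right (by norm_num) h1
  rw [pow_succ] at h6
  show a * h n + a + 2 ^ ((n + (a * h n + a)) ^ c + c) ≤ _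
  omega

theorem nexp_and_nh {h : ℕ → ℕ} {W : Lang} (hW : W ∈ NH O h) {k : ℕ}
    {P : (Fin k → List Bool) → Prop} (hP : NEXP O P) (i : Fin k) {G : ℕ → ℕ} (hG : PolyB G)
    (hb : ∀ e, P e → h (e i).length ≤ G (size e)) : NEXP O fun e => P e ∧ e i ∈ W := by
  obtain ⟨c, hc⟩ := hW
  refine nexp_and_big hc hP i (F := fun n => 2 ^ (G n ^ c + c)) (EP.pow2 (hG.comp_pow c))
    fun e he => ?_
  exact Nat.pow_le_pow_right (by norm_num)
    (Nat.add_le_add_right (Nat.pow_le_pow_left (hb e he) c) c)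

/-- Closure under complement translates upwards. -/
theorem nh_closed {h : ℕ → ℕ} (hh : ∀ n, n ≤ h n)
    (hg : NEXP O fun e : Fin 2 → List Bool => (e 1).length = h (e 0).length)
    (hQ : ∀ L ∈ NEXPLang O, Lᶜ ∈ NEXPLang O) : ∀ L ∈ NH O h, Lᶜ ∈ NH O h := by
  intro L hL
  set L₁ : Lang := {z | ∃ y x, (z = pair x y ∧ y.length = h x.length) ∧ x ∈ L} with hL₁
  have hm : L₁ ∈ NEXPLang O := by
    have h1 : NEXP O fun e : Fin 3 → List Bool => (e 0 = pair (e 2) (e 1) ∧
        (e 1).length = h (e 2).length) ∧ e 2 ∈ L := by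
      refine nexp_and_nh hL (k := 3) (P := fun e => e 0 = pair (e 2) (e 1) ∧
        (e 1).length = h (e 2).length) ((((nexp_pairRel (O := O)).reindex ![2, 1, 0]).congr
          fun e => by simp).and ((hg.reindex ![2, 1]).congr fun e => by simp)) 2 PolyB.id ?_
      rintro e ⟨-, h2⟩
      rw [← h2]
      exact len_le_size e 1
    have h2 := NEXP.exists h1 (g := fun n => n) PolyB.id (by
      rintro e z ⟨⟨h, -⟩, -⟩
      have a0 : app e z 0 = e 0 := rfl
      have a1 : app e z 1 = e 1 := rfl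
      have a2 : app e z 2 = z := rfl
      rw [a0, a1, a2] at h
      have e0 := len_le_size e 0
      rw [h, length_pair] at e0
      omega)
    have h3 := NEXP.exists h2 (g := fun n => n) PolyB.id (by
      rintro e z ⟨w, ⟨h, -⟩, -⟩
      have a0 : app (app e z) w 0 = e 0 := rfl
      have a1 : app (app e z) w 1 = z := rfl
      have a2 : app (app e z) w 2 = w := rfl
      rw [a0, a1, a2] at h
      have e0 := len_le_size e 0
      rw [h, length_pair] at e0
      omega)
    exact h3.congr fun e => Iff.rfl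
  have hc := hQ _ hm
  have h1 : NEXP O fun e : Fin 3 → List Bool => (e 1 = pair (e 0) (e 2) ∧
      (e 2).length = h (e 0).length) ∧ e 1 ∈ L₁ᶜ :=
    ((((nexp_pairRel (O := O)).reindex ![0, 2, 1]).congr fun e => by simp).and
      ((hg.reindex ![0, 2]).congr fun e => by simp)).and (nexp_mem hc 1)
  have h2 := NEXP.exists h1 (g := fun n => n) PolyB.id (by
    rintro e z ⟨⟨h, -⟩, -⟩
    have a0 : app e z 0 = e 0 := rfl
    have a1 : app e z 1 = e 1 := rfl
    have a2 : app e z 2 = z := rfl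
    rw [a0, a1, a2] at h
    have e0 := len_le_size e 1
    rw [h, length_pair] at e0
    omega)
  have h3 := nh_of_exists hh (R := fun x z => ∃ y, (z = pair x y ∧ y.length = h x.length) ∧
    z ∈ L₁ᶜ) (h2.congr fun e => Iff.rfl) (a := 3) (by
      rintro u z ⟨y, ⟨rfl, h4⟩, -⟩
      rw [length_pair, h4]
      have := hh u.length
      omega)
  have h4 : {u | ∃ z y, (z = pair u y ∧ y.length = h u.length) ∧ z ∈ L₁ᶜ} = Lᶜ := by
    ext u
    simp only [Set.mem_ofPred_eq, Set.mem_compl_iff]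
    constructor
    · rintro ⟨z, y, ⟨rfl, h4⟩, h5⟩ hu
      exact h5 ⟨y, u, ⟨rfl, h4⟩, hu⟩
    · intro hu
      refine ⟨_, List.replicate (h u.length) true, ⟨rfl, by simp⟩, ?_⟩
      rintro ⟨y, x, ⟨h5, -⟩, hx⟩
      obtain ⟨rfl, -⟩ := pair_injective h5
      exact hu hx
  rw [h4] at h3
  exact h3

end Pool.Agent.LibDown92
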