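import Pool.Agent.LibDown92.Down
import Pool.Agent.LibNexp.PowLaw

/-!
Closure under complement of triply exponential time removes a bounded number of advice values.
-/

namespace Pool.Agent.LibDown92

open Function Pool.Agent.LibNexp Pool.Agent.LibBHN Pool.Agent.LibDual85

variable {O : List Bool → Bool}

theorem exists_tow (n : ℕ) : ∃ j, n < 2 ^ 2 ^ j ∧ 2 ^ 2 ^ j ≤ n ^ 2 + 2 := by
  classical
  have hex : ∃ j, n < 2 ^ 2 ^ j :=
    ⟨n, lt_trans Nat.lt_two_pow_self (Nat.pow_lt_pow_right (by norm_num) Nat.lt_two_pow_self)⟩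
  refine ⟨Nat.find hex, Nat.find_spec hex, ?_⟩
  rcases h : Nat.find hex with _ | i
  · norm_num
  · have h1 : ¬ n < 2 ^ 2 ^ i := Nat.find_min hex (by omega)
    have h2 : 2 ^ 2 ^ (i + 1) = (2 ^ 2 ^ i) ^ 2 := by rw [pow_succ, pow_mul]
    rw [h2]
    have := Nat.pow_le_pow_left (not_lt.1 h1) 2
    omega

theorem nexp_tow {k : ℕ} (i j : Fin k) :
    NEXP O fun e : Fin k → List Bool => (e j).length = 2 ^ 2 ^ (e i).length := by
  have h1 : NEXP O fun e : Fin 3 → List Bool => (e 2).length = 2 ^ (e 0).length ∧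
      (e 1).length = 2 ^ (e 2).length := (nexp_twoPow 0 2).and (nexp_twoPow 2 1)
  have h2 := NEXP.exists h1 (g := fun n => n) PolyB.id (by
    rintro e z ⟨-, h⟩
    have a1 : app e z 1 = e 1 := rfl
    have a2 : app e z 2 = z := rfl
    rw [a1, a2] at h
    have e1 := len_le_size e 1
    have : z.length < 2 ^ z.length := Nat.lt_two_pow_self
    omega)
  refine (h2.reindex ![i, j]).congr fun e => ?_
  constructor
  · rintro ⟨z, h3, h4⟩
    have a0 : app (fun a : Fin 2 => e (![i, j] a)) z 0 = e i := rfl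
    have a1 : app (fun a : Fin 2 => e (![i, j] a)) z 1 = e j := rfl
    have a2 : app (fun a : Fin 2 => e (![i, j] a)) z 2 = z := rfl
    rw [a0, a2] at h3
    rw [a1, a2] at h4
    rw [h4, h3]
  · intro h
    refine ⟨List.replicate (2 ^ (e i).length) true, ?_, ?_⟩
    · show (List.replicate _ true).length = 2 ^ (e i).length
      simp
    · show (e j).length = 2 ^ (List.replicate _ true).length
      rw [List.length_replicate, h]

/-- A constant advice. -/
theorem nexp_pair_const {B : Lang} (hB : B ∈ NEXPLang O) (v : List Bool) {k : ℕ} (i : Fin k) :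
    NEXP O fun e : Fin k → List Bool => pair (e i) v ∈ B := by
  have h1 : NEXP O fun e : Fin 2 → List Bool => e 1 = v ∧ pair (e 0) (e 1) ∈ B :=
    (nexp_const v 1).and (nexp_pair_mem hB 0 1)
  have h2 := NEXP.exists h1 (g := fun _ => v.length) (PolyB.const _) (by
    rintro e z ⟨h, -⟩
    have a1 : app e z 1 = z := rfl
    rw [a1] at h
    rw [h])
  refine (h2.reindex ![i]).congr fun e => ?_
  constructor
  · rintro ⟨z, h3, h4⟩
    have a0 : app (fun a : Fin 1 => e (![i] a)) z 0 = e i := rfl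
    have a1 : app (fun a : Fin 1 => e (![i] a)) z 1 = z := rfl
    rw [a1] at h3
    rw [a0, a1, h3] at h4
    exact h4
  · intro h
    exact ⟨v, rfl, h⟩

/-- The padded version of a language. -/
def padLang (L : Lang) : Lang := {z | ∃ x, (∃ w, IsPad w ∧ z = x ++ w) ∧ x ∈ L}

theorem pad_unique {x x' w w' : List Bool} (hw : IsPad w) (hw' : IsPad w')
    (h : x ++ w = x' ++ w') : x = x' := by
  obtain ⟨j, rfl⟩ := hw
  obtain ⟨j', rfl⟩ := hw'
  have h1 := congrArg List.reverse h
  rw [List.reverse_append, List.reverse_append] at h1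
  simp only [List.reverse_cons, List.reverse_replicate, List.append_assoc,
    List.singleton_append] at h1
  have key : ∀ (a b : ℕ) (l l' : List Bool), List.replicate a false ++ true :: l =
      List.replicate b false ++ true :: l' → l = l' := by
    intro a
    induction a with
    | zero =>
      intro b l l' h
      cases b with
      | zero => simpa using h
      | succ b => simp [List.replicate_succ] at h
    | succ a ih =>
      intro b l l' h
      cases b with
      | zero => simp [List.replicate_succ] at h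
      | succ b =>
        simp only [List.replicate_succ, List.cons_append, List.cons.injEq, true_and] at h
        exact ih _ _ _ h
  exact List.reverse_injective (key _ _ _ _ h1)

theorem mem_padLang {L : Lang} {x w : List Bool} (hw : IsPad w) :
    x ++ w ∈ padLang L ↔ x ∈ L := by
  constructor
  · rintro ⟨x', ⟨w', hw', h⟩, hx⟩
    rwa [pad_unique hw hw' h]
  · intro hx
    exact ⟨x, ⟨w, hw, rfl⟩, hx⟩

theorem padLang_mem {L : Lang} (hL : L ∈ NEXPLang O) : padLang L ∈ NEXPLang O := by
  have h1 : NEXP O fun e : Fin 2 → List Bool => (∃ w, IsPad w ∧ e 0 = e 1 ++ w) ∧ e 1 ∈ L :=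
    (((nexp_catPad (O := O)).reindex ![1, 0]).congr fun e => by simp).and (nexp_mem hL 1)
  refine (NEXP.exists h1 (g := fun n => n) PolyB.id ?_).congr fun e => Iff.rfl
  rintro e z ⟨⟨w, -, h⟩, -⟩
  have a0 : app e z 0 = e 0 := rfl
  have a1 : app e z 1 = z := rfl
  rw [a0, a1] at h
  have := len_le_size e 0
  rw [h, List.length_append] at this
  omega

/-- Closure of triply exponential time removes finitely many advice values. -/
theorem down_const (hC : ∀ L ∈ NH O (fun n => 2 ^ 2 ^ n), Lᶜ ∈ NH O (fun n => 2 ^ 2 ^ n))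
    (hadv : ∀ L ∈ NEXPLang O, ∃ A : Finset (List Bool), Lᶜ ∈ WithAdvice (NEXPLang O)
      {f | ∀ n, f n ∈ A}) : ∀ L ∈ NEXPLang O, Lᶜ ∈ NEXPLang O := by
  intro L hL
  obtain ⟨A, B, hB, f, hf', hfB'⟩ := hadv _ (padLang_mem hL)
  have hf : ∀ n, f n ∈ A := hf'
  have hfB : ∀ x, x ∉ padLang L ↔ pair x (f x.length) ∈ B := fun x => by
    have := Set.ext_iff.1 hfB' x
    simpa using this
  set U : List Bool → Lang := fun v => {u | ∃ y : List Bool, y.length = 2 ^ 2 ^ u.length ∧
    y ∈ padLang L ∧ pair y v ∈ B} with hU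
  have hUm : ∀ v, U v ∈ NH O (fun n => 2 ^ 2 ^ n) := by
    intro v
    refine nh_of_exists (fun n => le_trans Nat.lt_two_pow_self.le Nat.lt_two_pow_self.le)
      (R := fun u y => y.length = 2 ^ 2 ^ u.length ∧ y ∈ padLang L ∧ pair y v ∈ B)
      ((nexp_tow 0 1).and ((nexp_mem (padLang_mem hL) 1).and (nexp_pair_const hB v 1)))
      (a := 1) ?_
    rintro u y ⟨h, -⟩
    rw [h]
    show _ ≤ 1 * 2 ^ 2 ^ u.length + 1
    omega
  -- the relation
  have h0 : NEXP O fun e : Fin 1 → List Bool => ∃ v ∈ A, ∃ z : Fin 3 → List Bool,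
      (((∃ w, IsPad w ∧ z 0 = e 0 ++ w) ∧ ((z 0).length = 2 ^ 2 ^ (z 1).length ∧
        ((z 2).length = (e 0).length ^ 2 + 2 ∧ (z 0).length ≤ (z 2).length))) ∧
          pair (z 0) v ∈ B) ∧ z 1 ∈ (U v)ᶜ := by
    refine NEXP.finite_exists A fun v _ => ?_
    have h1 : NEXP O fun e : Fin 4 → List Bool =>
        (((∃ w, IsPad w ∧ e 1 = e 0 ++ w) ∧ ((e 1).length = 2 ^ 2 ^ (e 2).length ∧
        ((e 3).length = (e 0).length ^ 2 + 2 ∧ (e 1).length ≤ (e 3).length))) ∧
          pair (e 1) v ∈ B) ∧ e 2 ∈ (U v)ᶜ := by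
      refine nexp_and_nh (hC _ (hUm v)) (k := 4) (P := fun e => ((∃ w, IsPad w ∧ e 1 = e 0 ++ w) ∧
        ((e 1).length = 2 ^ 2 ^ (e 2).length ∧
        ((e 3).length = (e 0).length ^ 2 + 2 ∧ (e 1).length ≤ (e 3).length))) ∧
          pair (e 1) v ∈ B)
        (((((nexp_catPad (O := O)).reindex ![0, 1]).congr fun e => by simp).and
        ((nexp_tow 2 1).and ((nexp_powAdd 2 2 0 3).and (nexp_lenLe 1 3)))).and
        (nexp_pair_const hB v 1)) 2 PolyB.id ?_
      rintro e ⟨⟨-, h2, -⟩, -⟩
      rw [← h2]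
      exact len_le_size e 1
    refine nexp_exN (m := 3) (R := fun (e : Fin 1 → List Bool) (z : Fin 3 → List Bool) =>
      (((∃ w, IsPad w ∧ z 0 = e 0 ++ w) ∧ ((z 0).length = 2 ^ 2 ^ (z 1).length ∧
        ((z 2).length = (e 0).length ^ 2 + 2 ∧ (z 0).length ≤ (z 2).length))) ∧
          pair (z 0) v ∈ B) ∧ z 1 ∈ (U v)ᶜ) h1 (g := fun n => n ^ 2 + 2)
      ((PolyB.id.pow 2).add (PolyB.const 2)) (fun a b hab => ?_) ?_
    · show a ^ 2 + 2 ≤ b ^ 2 + 2
      have := Nat.pow_le_pow_left hab 2
      omega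
    · rintro e z ⟨⟨⟨-, h2, h3, h4⟩, -⟩, -⟩ j
      have h5 : (e 0).length ^ 2 ≤ size e ^ 2 := Nat.pow_le_pow_left (len_le_size e 0) 2
      have h6 : (z 1).length ≤ (z 0).length := by
        rw [h2]
        exact le_trans Nat.lt_two_pow_self.le Nat.lt_two_pow_self.le
      show (z j).length ≤ size e ^ 2 + 2
      fin_cases j
      · show (z 0).length ≤ _; omega
      · show (z 1).length ≤ _; omega
      · show (z 2).length ≤ _; omega
  refine h0.congr fun e => ?_
  set x := e 0 with hx
  constructor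
  · rintro ⟨v, -, z, ⟨⟨⟨w, hw, h3⟩, h4, h5, h6⟩, h7⟩, h8⟩ hxL
    refine h8 ⟨z 0, h4, ?_, h7⟩
    rw [h3]
    exact (mem_padLang hw).2 hxL
  · intro hxL
    obtain ⟨j, hj1, hj2⟩ := exists_tow x.length
    have hw : IsPad (true :: List.replicate (2 ^ 2 ^ j - x.length - 1) false) := ⟨_, rfl⟩
    have hlen : (x ++ true :: List.replicate (2 ^ 2 ^ j - x.length - 1) false).length =
        2 ^ 2 ^ j := by
      rw [List.length_append, List.length_cons, List.length_replicate]
      omega
    have hnot : x ++ true :: List.replicate (2 ^ 2 ^ j - x.length - 1) false ∉ padLang L :=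
      fun h => hxL ((mem_padLang hw).1 h)
    refine ⟨f (2 ^ 2 ^ j), hf _, ![x ++ true :: List.replicate (2 ^ 2 ^ j - x.length - 1) false,
      List.replicate j true, List.replicate (x.length ^ 2 + 2) true],
      ⟨⟨⟨_, hw, rfl⟩, ?_, ?_, ?_⟩, ?_⟩, ?_⟩
    · show (x ++ true :: List.replicate (2 ^ 2 ^ j - x.length - 1) false).length =
        2 ^ 2 ^ (List.replicate j true).length
      rw [hlen, List.length_replicate]
    · show (List.replicate (x.length ^ 2 + 2) true).length = x.length ^ 2 + 2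
      simp
    · show (x ++ true :: List.replicate (2 ^ 2 ^ j - x.length - 1) false).length ≤
        (List.replicate (x.length ^ 2 + 2) true).length
      rw [hlen, List.length_replicate]
      exact hj2
    · have := (hfB _).1 hnot
      rw [hlen] at this
      exact this
    · rintro ⟨y, h3, h4, h5⟩
      have h3' : y.length = 2 ^ 2 ^ (List.replicate j true).length := h3
      rw [List.length_replicate] at h3'
      rw [← h3'] at h5
      exact (hfB y).2 h5 h4

end Pool.Agent.LibDown92
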