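import Pool.Agent.LibDown92.Const

/-!
Complementing facts about strings of length `q j` in time exponential in `h(j)`.
-/

namespace Pool.Agent.LibDown92

open Function Pool.Agent.LibNexp Pool.Agent.LibBHN Pool.Agent.LibDual85

variable {O : List Bool → Bool} {h : ℕ → ℕ}

/-- The graph of `h` is in the class. -/
def Graph (O : List Bool → Bool) (h : ℕ → ℕ) : Prop :=
  NEXP O fun e : Fin 2 → List Bool => (e 1).length = h (e 0).length

/-- Nondeterministic time `2 ^ poly(h)` is closed under complement. -/
def Closed (O : List Bool → Bool) (h : ℕ → ℕ) : Prop := ∀ L ∈ NH O h, Lᶜ ∈ NH O h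

/-- Facts about numbers `h j`, in unary, and strings of length `q j` can be complemented. -/
def Dec (O : List Bool → Bool) (h : ℕ → ℕ) (q : ℕ) : Prop :=
  ∀ R : ℕ → List Bool → Prop,
    (NEXP O fun e : Fin 2 → List Bool => R (e 0).length (e 1)) →
    NEXP O fun e : Fin 2 → List Bool =>
      (∃ j, (e 0).length = h j ∧ (e 1).length = q * j) ∧ ¬ R (e 0).length (e 1)

theorem Graph.nexp (hg : Graph O h) {k : ℕ} (i j : Fin k) :
    NEXP O fun e : Fin k → List Bool => (e j).length = h (e i).length :=
  (NEXP.reindex hg ![i, j]).congr fun e => by simp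

theorem dec_one (hs : StrictMono h) (hg : Graph O h) (hC : Closed O h) : Dec O h 1 := by
  intro R hR
  have hU : {u : List Bool | ∃ y : List Bool, y.length = h u.length ∧ R y.length u} ∈ NH O h := by
    refine nh_of_exists (fun n => hs.id_le n) (R := fun u y => y.length = h u.length ∧
      R y.length u) ((hg.nexp 0 1).and ((hR.reindex ![1, 0]).congr fun e => by simp)) (a := 1) ?_
    rintro u y ⟨h1, -⟩
    omega
  have h1 := nexp_and_nh (hC _ hU) (k := 2) (P := fun e => (e 0).length = h (e 1).length)
    (hg.nexp 1 0) 1 PolyB.id (by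
      rintro e he
      rw [← he]
      exact len_le_size e 0)
  refine h1.congr fun e => ?_
  constructor
  · rintro ⟨h2, h3⟩
    refine ⟨⟨(e 1).length, h2, by ring⟩, fun h4 => h3 ⟨e 0, h2, h4⟩⟩
  · rintro ⟨⟨j, h2, h3⟩, h4⟩
    rw [one_mul] at h3
    refine ⟨by rw [h2, h3], ?_⟩
    rintro ⟨y, h5, h6⟩
    refine h4 ?_
    rw [h5, h3, ← h2] at h6
    exact h6

end Pool.Agent.LibDown92
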