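import Pool.Agent.LibDown92.PreS

/-!
[TD P4] Longer strings: downward translation by counting.
-/

namespace Pool.Agent.LibDown92

open Function Pool.Agent.LibNexp Pool.Agent.LibBHN Pool.Agent.LibDual85

variable {O : List Bool → Bool} {h : ℕ → ℕ}

/-- PROOF. Given `R`. `Pre R h q q ℓ t` (in the class by `nexp_pre`) says `ℓ = h j`,
`t.length = q j + 1`, `val t = cnt (q j) (R ℓ)` (exponent `(q - q) j = 0`).
`(∃ j, ℓ = h j ∧ v.length = q * j) ∧ ¬ R ℓ v` iff there is `t` with `Pre R h q q ℓ t` and
`∃ n, t.length = n + 1 ∧ val t ≤ cnt n (fun y => R ℓ y ∧ y ≠ v)` and `∃ j, ℓ = h j ∧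
v.length = q * j` (the last: variable `w` of length `j`, `hg.nexp`, `nexp_lin`).
(`nexp_count (k := 2)` for the count with parameters `e 0` (ℓ in unary) and `v`; see
`Pool.Agent.LibSpec30.enough_census` in LibSpec30/Census.lean for the same argument:
`cnt_notMem`, `cnt_mem`.) Lengths: `t.length = q j + 1 ≤ q ℓ + 1` since `j ≤ h j`. -/
theorem dec_all (hs : StrictMono h) (hg : Graph O h) (hD : Dec O h 1) (q : ℕ) : Dec O h q := by
  intro R hR
  have h1 : NEXP O fun e : Fin 3 → List Bool => R (e 0).length (e 2) ∧ e 2 ≠ e 1 :=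
    ((hR.reindex ![0, 2]).congr fun e => by simp).and (nexp_ne 2 1)
  have h2 : NEXP O fun e : Fin 3 → List Bool => ∃ n, (e 2).length = n + 1 ∧
      val (e 2) ≤ cnt n fun y => R (e 0).length y ∧ y ≠ e 1 :=
    nexp_count (k := 2) (R := fun e y => R (e 0).length y ∧ y ≠ e 1) h1
  have h3 : NEXP O fun e : Fin 3 → List Bool => Pre R h q q (e 0).length (e 2) :=
    ((nexp_pre hs hg hD hR q le_rfl).reindex ![0, 2]).congr fun e => by simp
  have h4 : NEXP O fun e : Fin 3 → List Bool => (e 0).length = h (e 2).length ∧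
      (e 1).length = q * (e 2).length + 0 := (hg.nexp 2 0).and (nexp_lin q 0 2 1)
  have h5 : NEXP O fun e : Fin 2 → List Bool => ∃ w : List Bool, (e 0).length = h w.length ∧
      (e 1).length = q * w.length + 0 := by
    refine (NEXP.exists h4 (g := fun n => n) PolyB.id ?_).congr fun e => Iff.rfl
    rintro e z ⟨h6, -⟩
    have a0 : app e z 0 = e 0 := rfl
    have a2 : app e z 2 = z := rfl
    rw [a0, a2] at h6
    have h7 : z.length ≤ h z.length := hs.id_le _
    have h8 := len_le_size e 0
    show z.length ≤ size e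
    omega
  have h6 : NEXP O fun e : Fin 2 → List Bool => ∃ t : List Bool, Pre R h q q (e 0).length t ∧
      ∃ n, t.length = n + 1 ∧ val t ≤ cnt n fun y => R (e 0).length y ∧ y ≠ e 1 := by
    refine (NEXP.exists (h3.and h2) (g := fun n => q * n + 1)
      (((PolyB.const q).mul PolyB.id).add (PolyB.const 1)) ?_).congr fun e => Iff.rfl
    rintro e z ⟨⟨j, h6, h7, -⟩, -⟩
    have a0 : app e z 0 = e 0 := rfl
    have a2 : app e z 2 = z := rfl
    rw [a0] at h6
    rw [a2] at h7
    have h8 : j ≤ size e := by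
      have h9 : j ≤ h j := hs.id_le _
      have h10 := len_le_size e 0
      omega
    show z.length ≤ q * size e + 1
    rw [h7]
    exact Nat.succ_le_succ (Nat.mul_le_mul_left q h8)
  refine (h5.and h6).congr fun e => ?_
  constructor
  · rintro ⟨⟨w, h7, h8⟩, t, ⟨j, h9, h10, h11, h12⟩, n, h13, h14⟩
    have hj : w.length = j := hs.injective (h7.symm.trans h9)
    subst hj
    refine ⟨⟨w.length, h7, h8⟩, fun h15 => ?_⟩
    have h16 := cnt_mem (P := R (e 0).length) (x := e 1) h15
    have h17 : n = (e 1).length := by omega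
    rw [h17] at h14
    have h18 : (e 1).length = q * w.length := h8
    have h19 : (q - q) * w.length = 0 := by rw [Nat.sub_self, zero_mul]
    rw [h19, pow_zero, mul_one] at h12
    rw [h18] at h14 h16
    omega
  · rintro ⟨⟨j, h7, h8⟩, h9⟩
    refine ⟨⟨List.replicate j true, by rw [List.length_replicate]; exact h7, by
      rw [List.length_replicate]; exact h8⟩, ?_⟩
    obtain ⟨t, ht⟩ := pre_exists (R := R) (h := h) (q := q) (i := q) le_rfl j
    rw [← h7] at ht
    refine ⟨t, ht, q * j, ?_, ?_⟩
    · obtain ⟨j', h10, h11, -⟩ := ht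
      have hj : j = j' := hs.injective (h7.symm.trans h10)
      rw [h11, hj]
    · obtain ⟨j', h10, h11, h12, -⟩ := ht
      have hj : j = j' := hs.injective (h7.symm.trans h10)
      subst hj
      have h19 : (q - q) * j = 0 := by rw [Nat.sub_self, zero_mul]
      rw [h19, pow_zero, mul_one] at h12
      rw [cnt_notMem (P := R (e 0).length) h9]
      exact h12

end Pool.Agent.LibDown92
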