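import Pool.Agent.LibDown92.Big

/-!
Downward translation: closure under complement of larger classes removes advice.
-/

namespace Pool.Agent.LibDown92

open Function Pool.Agent.LibNexp Pool.Agent.LibBHN Pool.Agent.LibDual85

variable {O : List Bool → Bool}

/-- `u = ⟨β, v⟩` where `β` is the length of `y` in binary, `y ∈ L` and the advice `v` puts `y` in
the complement. -/
theorem nexp_wrong {L B : Lang} (hL : L ∈ NEXPLang O) (hB : B ∈ NEXPLang O) :
    NEXP O fun e : Fin 2 → List Bool =>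
      ∃ β v : List Bool, e 0 = pair β v ∧ val β = (e 1).length ∧ e 1 ∈ L ∧ pair (e 1) v ∈ B := by
  have h1 : NEXP O fun e : Fin 4 → List Bool => e 0 = pair (e 2) (e 3) ∧
      (val (e 2) = (e 1).length ∧ (e 1 ∈ L ∧ pair (e 1) (e 3) ∈ B)) :=
    (nexp_pair 2 3 0).and ((nexp_valLen 2 1).and ((nexp_mem hL 1).and (nexp_pair_mem hB 1 3)))
  have h2 := NEXP.exists h1 (g := fun n => n) PolyB.id (by
    rintro e z ⟨h, -⟩
    have a0 : app e z 0 = e 0 := rfl
    have a2 : app e z 2 = e 2 := rfl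
    have a3 : app e z 3 = z := rfl
    rw [a0, a2, a3] at h
    have e0 := len_le_size e 0
    rw [h, length_pair] at e0
    omega)
  have h3 := NEXP.exists h2 (g := fun n => n) PolyB.id (by
    rintro e z ⟨w, h, -⟩
    have a0 : app (app e z) w 0 = e 0 := rfl
    have a2 : app (app e z) w 2 = z := rfl
    rw [a0, a2] at h
    have e0 := len_le_size e 0
    rw [h, length_pair] at e0
    omega)
  exact h3.congr fun e => Iff.rfl

theorem lt_pow_log (n : ℕ) : n < 2 ^ (Nat.log 2 (n + 1) + 1) :=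
  lt_trans (Nat.lt_succ_self n) (Nat.lt_pow_succ_log_self (by norm_num) _)

/-- Closure of doubly exponential time removes logarithmic advice. -/
theorem down_log (hC : ∀ L ∈ NH O (fun n => 2 ^ n), Lᶜ ∈ NH O (fun n => 2 ^ n)) {C : ℕ}
    (hadv : ∀ L ∈ NEXPLang O, ∃ c : ℕ, Lᶜ ∈ WithAdvice (NEXPLang O)
      {f | ∀ n, (f n).length ≤ C * Nat.log 2 (n + 1) + c}) :
    ∀ L ∈ NEXPLang O, Lᶜ ∈ NEXPLang O := by
  intro L hL
  obtain ⟨c, B, hB, f, hf', hfB'⟩ := hadv L hL
  have hf : ∀ n, (f n).length ≤ C * Nat.log 2 (n + 1) + c := hf'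
  have hfB : ∀ x, x ∉ L ↔ pair x (f x.length) ∈ B := fun x => by
    have := Set.ext_iff.1 hfB' x
    simpa using this
  set U : Lang := {u | ∃ y, ∃ β v : List Bool, u = pair β v ∧ val β = y.length ∧ y ∈ L ∧
    pair y v ∈ B} with hU
  have hUm : U ∈ NH O (fun n => 2 ^ n) := by
    refine nh_of_exists (fun n => Nat.lt_two_pow_self.le) (R := fun u y => ∃ β v : List Bool,
      u = pair β v ∧ val β = y.length ∧ y ∈ L ∧ pair y v ∈ B) (nexp_wrong hL hB) (a := 1) ?_
    rintro u y ⟨β, v, rfl, h2, -⟩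
    have h3 := val_lt β
    have h4 : 2 ^ β.length ≤ 2 ^ (pair β v).length :=
      Nat.pow_le_pow_right (by norm_num) (by rw [length_pair]; omega)
    omega
  have hUc := hC U hUm
  -- the relation
  have h1 : NEXP O fun e : Fin 5 → List Bool => ((e 3 = pair (e 1) (e 2) ∧
      ((e 1).length = 1 * Nat.log 2 ((e 0).length + 1) + 1 ∧ val (e 1) = (e 0).length)) ∧
      (((e 4).length = C * Nat.log 2 ((e 0).length + 1) + c ∧ (e 2).length ≤ (e 4).length) ∧
        pair (e 0) (e 2) ∈ B)) ∧ e 3 ∈ Uᶜ := by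
    refine nexp_and_nh hUc (k := 5) (P := fun e => (e 3 = pair (e 1) (e 2) ∧
      ((e 1).length = 1 * Nat.log 2 ((e 0).length + 1) + 1 ∧ val (e 1) = (e 0).length)) ∧
      (((e 4).length = C * Nat.log 2 ((e 0).length + 1) + c ∧ (e 2).length ≤ (e 4).length) ∧
        pair (e 0) (e 2) ∈ B)) (((nexp_pair 1 2 3).and ((nexp_logMul 1 1 0 1).and
        (nexp_valLen 1 0))).and (((nexp_logMul C c 0 4).and (nexp_lenLe 2 4)).and
        (nexp_pair_mem hB 0 2))) 3 (G := fun n => (n + 1) ^ (C + 2) * 2 ^ (c + 4))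
      (((PolyB.id.add (PolyB.const 1)).pow _).mul (PolyB.const _)) ?_
    rintro e ⟨⟨h2, h3, -⟩, ⟨h4, h5⟩, -⟩
    have h6 : (e 3).length ≤ (C + 2) * Nat.log 2 ((e 0).length + 1) + (c + 4) := by
      rw [h2, length_pair]
      rw [h4] at h5
      nlinarith
    calc 2 ^ (e 3).length ≤ 2 ^ ((C + 2) * Nat.log 2 ((e 0).length + 1) + (c + 4)) :=
          Nat.pow_le_pow_right (by norm_num) h6
      _ = (2 ^ Nat.log 2 ((e 0).length + 1)) ^ (C + 2) * 2 ^ (c + 4) := by
          rw [pow_add, ← pow_mul, mul_comm (C + 2)]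
      _ ≤ (size e + 1) ^ (C + 2) * 2 ^ (c + 4) := by
          refine Nat.mul_le_mul_right _ (Nat.pow_le_pow_left ?_ _)
          exact (Nat.pow_log_le_self 2 (by omega)).trans (by have := len_le_size e 0; omega)
  have h2 : NEXP O fun e : Fin 1 → List Bool => ∃ z : Fin 4 → List Bool,
      ((z 2 = pair (z 0) (z 1) ∧
      ((z 0).length = 1 * Nat.log 2 ((e 0).length + 1) + 1 ∧ val (z 0) = (e 0).length)) ∧
      (((z 3).length = C * Nat.log 2 ((e 0).length + 1) + c ∧ (z 1).length ≤ (z 3).length) ∧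
        pair (e 0) (z 1) ∈ B)) ∧ z 2 ∈ Uᶜ := by
    refine nexp_exN (m := 4) (R := fun (e : Fin 1 → List Bool) (z : Fin 4 → List Bool) =>
      ((z 2 = pair (z 0) (z 1) ∧
      ((z 0).length = 1 * Nat.log 2 ((e 0).length + 1) + 1 ∧ val (z 0) = (e 0).length)) ∧
      (((z 3).length = C * Nat.log 2 ((e 0).length + 1) + c ∧ (z 1).length ≤ (z 3).length) ∧
        pair (e 0) (z 1) ∈ B)) ∧ z 2 ∈ Uᶜ) h1 (g := fun n => (C + 2) * n + (c + 4))
      (((PolyB.const _).mul PolyB.id).add (PolyB.const _)) (fun a b hab => by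
        show (C + 2) * a + (c + 4) ≤ (C + 2) * b + (c + 4)
        have := Nat.mul_le_mul_left (C + 2) hab
        omega) ?_
    rintro e z ⟨⟨⟨h2, h3, -⟩, ⟨h4, h5⟩, -⟩, -⟩ j
    have hl : Nat.log 2 ((e 0).length + 1) ≤ size e := by
      have h6 : Nat.log 2 ((e 0).length + 1) < (e 0).length + 1 :=
        Nat.log_lt_of_lt_pow (by omega) Nat.lt_two_pow_self
      have := len_le_size e 0
      omega
    have h6 : C * Nat.log 2 ((e 0).length + 1) ≤ C * size e := Nat.mul_le_mul_left _ hl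
    have h7 : (z 2).length = 2 * (z 0).length + (z 1).length + 2 := by rw [h2, length_pair]
    have h8 : (C + 2) * size e = C * size e + 2 * size e := by ring
    show (z j).length ≤ (C + 2) * size e + (c + 4)
    fin_cases j
    · show (z 0).length ≤ _; omega
    · show (z 1).length ≤ _; omega
    · show (z 2).length ≤ _; omega
    · show (z 3).length ≤ _; omega
  refine h2.congr fun e => ?_
  set x := e 0 with hx
  constructor
  · rintro ⟨z, ⟨⟨h3, h4, h5⟩, -, h6⟩, h7⟩ hxL
    exact h7 ⟨x, z 0, z 1, h3, h5, hxL, h6⟩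
  · intro hxL
    have hn := lt_pow_log x.length
    refine ⟨![bits (Nat.log 2 (x.length + 1) + 1) x.length, f x.length,
      pair (bits (Nat.log 2 (x.length + 1) + 1) x.length) (f x.length),
      List.replicate (C * Nat.log 2 (x.length + 1) + c) true], ⟨⟨rfl, ?_, ?_⟩, ⟨?_, ?_⟩, ?_⟩, ?_⟩
    · show (bits _ _).length = _
      rw [length_bits, one_mul]
    · show val (bits _ _) = _
      exact val_bits hn
    · show (List.replicate _ true).length = _
      simp
    · show (f x.length).length ≤ (List.replicate _ true).length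
      rw [List.length_replicate]
      exact hf _
    · exact (hfB x).1 hxL
    · rintro ⟨y, β, v, h3, h4, h5, h6⟩
      have h7 : pair (bits (Nat.log 2 (x.length + 1) + 1) x.length) (f x.length) = pair β v := h3
      obtain ⟨rfl, rfl⟩ := pair_injective h7
      rw [val_bits hn] at h4
      rw [h4] at h6
      exact (hfB y).2 h6 h5

end Pool.Agent.LibDown92
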