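import Pool.Agent.LibDown92.Dec
import Pool.Agent.LibBHN.Count

/-!
[TD P1] Lower bounds on numbers of strings, given by their leading bits.

`val` is the value of a binary string, LEAST significant bit first (`val (b :: x) = b.toNat +
2 * val x`), so the leading bits are a suffix: `val (l ++ t) = val l + 2 ^ l.length * val t`.
`cnt n P` is the number of strings of length `n` with `P` (LibBHN.CountA), `nexp_count` is in
LibBHN.Count.
-/

namespace Pool.Agent.LibDown92

open Function Pool.Agent.LibNexp Pool.Agent.LibBHN Pool.Agent.LibDual85

variable {O : List Bool → Bool} {h : ℕ → ℕ}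

theorem val_app (l t : List Bool) : val (l ++ t) = val l + 2 ^ l.length * val t := by
  induction l with
  | nil => simp [val]
  | cons b l ih =>
    simp only [List.cons_append, val, ih, List.length_cons, pow_succ]
    ring

/-- The number of strings `v` of length `q j` with `R (h j) v` is at least
`val t * 2 ^ ((q - i) j)`, where `t` has length `i j + 1`. -/
def Ge (R : ℕ → List Bool → Prop) (h : ℕ → ℕ) (q i : ℕ) (ℓ : ℕ) (t : List Bool) : Prop :=
  ∃ j, ℓ = h j ∧ t.length = i * j + 1 ∧ val t * 2 ^ ((q - i) * j) ≤ cnt (q * j) (R ℓ)

/-- PROOF. `nexp_count (k := 1)` with the relation `fun e v => R (e 0).length v` gives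
`NEXP O fun e : Fin 2 => ∃ n, (e 1).length = n + 1 ∧ val (e 1) ≤ cnt n (R (e 0).length)`.
`Ge R h q i (e 0).length (e 1)` holds iff there are strings `w, z, s` (use `nexp_exN` with `m = 3`,
bound `g n = n * (q + 2) + 1` or larger) with `(e 0).length = h w.length` (`hg.nexp`),
`(e 1).length = i * w.length + 1` (`nexp_lin`), `z` consists of zeros (`nexp_zeros`),
`z.length = (q - i) * w.length` (`nexp_lin`), `s = z ++ e 1` (`nexp_append`) and the above for
`(e 0, s)`; then `s.length = q * w.length + 1` because `i ≤ q`, and
`val s = val (e 1) * 2 ^ z.length` by `val_app`. `w.length ≤ h w.length` by `hs.id_le`. -/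
theorem nexp_ge (hs : StrictMono h) (hg : Graph O h) {R : ℕ → List Bool → Prop}
    (hR : NEXP O fun e : Fin 2 → List Bool => R (e 0).length (e 1)) {q i : ℕ} (hi : i ≤ q) :
    NEXP O fun e : Fin 2 → List Bool => Ge R h q i (e 0).length (e 1) := by
  have hcnt : NEXP O fun e : Fin 2 → List Bool => ∃ n, (e 1).length = n + 1 ∧
      val (e 1) ≤ cnt n (R (e 0).length) :=
    nexp_count (k := 1) (R := fun e v => R (e 0).length v) (hR.congr fun e => Iff.rfl)
  have h1 : NEXP O fun e : Fin (2 + 3) → List Bool =>
      (e 0).length = h (e 2).length ∧ (e 1).length = i * (e 2).length + 1 ∧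
      (e 3 = (e 3).flatMap fun _ => [false]) ∧ (e 3).length = (q - i) * (e 2).length + 0 ∧
      e 4 = e 3 ++ e 1 ∧ ∃ n, (e 4).length = n + 1 ∧ val (e 4) ≤ cnt n (R (e 0).length) :=
    (hg.nexp 2 0).and ((nexp_lin i 1 2 1).and ((nexp_zeros 3).and ((nexp_lin (q - i) 0 2 3).and
      ((nexp_append 3 1 4).and ((hcnt.reindex ![0, 4]).congr fun e => by simp)))))
  have h2 := nexp_exN (k := 2) (m := 3) (R := fun (e : Fin 2 → List Bool) (z : Fin 3 → List Bool) =>
      (e 0).length = h (z 0).length ∧ (e 1).length = i * (z 0).length + 1 ∧
      (z 1 = (z 1).flatMap fun _ => [false]) ∧ (z 1).length = (q - i) * (z 0).length + 0 ∧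
      z 2 = z 1 ++ e 1 ∧ ∃ n, (z 2).length = n + 1 ∧ val (z 2) ≤ cnt n (R (e 0).length)) h1
    (g := fun n => n * (q + 2) + 1) ((PolyB.id.mul (PolyB.const (q + 2))).add (PolyB.const 1))
    (fun a b hab => by
      show a * (q + 2) + 1 ≤ b * (q + 2) + 1
      have := Nat.mul_le_mul_right (q + 2) hab
      omega) (by
      rintro e z ⟨h3, h4, h5, h6, h7, h8⟩ j
      have h9 : (z 0).length ≤ (e 0).length := by
        rw [h3]
        exact hs.id_le _
      have h10 : (e 0).length ≤ size e := len_le_size e 0
      have h11 : (e 1).length ≤ size e := len_le_size e 1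
      have h12 : (q - i) * (z 0).length ≤ q * size e :=
        Nat.mul_le_mul (Nat.sub_le q i) (h9.trans h10)
      have h13 : size e * (q + 2) = q * size e + 2 * size e := by ring
      have h14 : (z 2).length = (z 1).length + (e 1).length := by
        rw [h7, List.length_append]
      show (z j).length ≤ size e * (q + 2) + 1
      fin_cases j
      · show (z 0).length ≤ _
        omega
      · show (z 1).length ≤ _
        omega
      · show (z 2).length ≤ _
        omega)
  refine h2.congr fun e => ?_
  have hz0 : ∀ l : List Bool, (l = l.flatMap fun _ => [false]) → val l = 0 := by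
    intro l
    induction l with
    | nil => intro _; simp [val]
    | cons b l ih =>
      intro hl
      simp only [List.flatMap_cons, List.singleton_append, List.cons.injEq] at hl
      rw [val, ih hl.2, hl.1]
      simp
  constructor
  · rintro ⟨z, h3, h4, h5, h6, h7, n, h8, h9⟩
    refine ⟨(z 0).length, h3, h4, ?_⟩
    have h10 : n = q * (z 0).length := by
      have h14 : (z 2).length = (z 1).length + (e 1).length := by
        rw [h7, List.length_append]
      have h15 : (q - i) * (z 0).length + i * (z 0).length = q * (z 0).length := by
        rw [← Nat.add_mul, Nat.sub_add_cancel hi]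
      omega
    rw [h10, h7, val_app, hz0 _ h5, h6] at h9
    rw [Nat.zero_add, Nat.add_zero, Nat.mul_comm] at h9
    exact h9
  · rintro ⟨j, h3, h4, h5⟩
    have h6 : val (List.replicate ((q - i) * j) false) = 0 :=
      hz0 _ (by
        induction (q - i) * j with
        | zero => simp
        | succ n ih => rw [List.replicate_succ, List.flatMap_cons, ← ih]; rfl)
    refine ⟨![List.replicate j true, List.replicate ((q - i) * j) false,
      List.replicate ((q - i) * j) false ++ e 1], ?_, ?_, ?_, ?_, rfl, q * j, ?_, ?_⟩
    · show (e 0).length = h (List.replicate j true).length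
      rw [List.length_replicate]
      exact h3
    · show (e 1).length = i * (List.replicate j true).length + 1
      rw [List.length_replicate]
      exact h4
    · show List.replicate ((q - i) * j) false =
        (List.replicate ((q - i) * j) false).flatMap fun _ => [false]
      induction (q - i) * j with
      | zero => simp
      | succ n ih => rw [List.replicate_succ, List.flatMap_cons, ← ih]; rfl
    · show (List.replicate ((q - i) * j) false).length = (q - i) * (List.replicate j true).length + 0
      simp
    · show (List.replicate ((q - i) * j) false ++ e 1).length = q * j + 1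
      have h15 : (q - i) * j + i * j = q * j := by
        rw [← Nat.add_mul, Nat.sub_add_cancel hi]
      rw [List.length_append, List.length_replicate, h4]
      omega
    · show val (List.replicate ((q - i) * j) false ++ e 1) ≤ cnt (q * j) (R (e 0).length)
      rw [val_app, h6, List.length_replicate, Nat.zero_add, Nat.mul_comm]
      exact h5

end Pool.Agent.LibDown92
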