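import Pool.Agent.LibDown92.Ge

/-!
[TD P2] The leading bits of a number of strings are certified, block by block.
-/

namespace Pool.Agent.LibDown92

open Function Pool.Agent.LibNexp Pool.Agent.LibBHN Pool.Agent.LibDual85

variable {O : List Bool → Bool} {h : ℕ → ℕ}

/-- The string `t` consists of the leading `i j + 1` bits of the number (with `q j + 1` bits) of
strings `v` of length `q j` with `R (h j) v`. -/
def Pre (R : ℕ → List Bool → Prop) (h : ℕ → ℕ) (q i : ℕ) (ℓ : ℕ) (t : List Bool) : Prop :=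
  ∃ j, ℓ = h j ∧ t.length = i * j + 1 ∧ val t * 2 ^ ((q - i) * j) ≤ cnt (q * j) (R ℓ) ∧
    cnt (q * j) (R ℓ) < (val t + 1) * 2 ^ ((q - i) * j)

/-- There is exactly one `t`. PROOF: `val t = N / 2 ^ ((q - i) j)`, `val_inj`. -/
theorem pre_unique (hs : StrictMono h) {R : ℕ → List Bool → Prop} {q i ℓ : ℕ}
    {t t' : List Bool} (ht : Pre R h q i ℓ t) (ht' : Pre R h q i ℓ t') : t = t' := by
  obtain ⟨j, h1, h2, h3, h4⟩ := ht
  obtain ⟨j', h1', h2', h3', h4'⟩ := ht'
  have hj : j = j' := hs.injective (h1.symm.trans h1')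
  subst hj
  have e1 := Nat.div_eq_of_lt_le h3 h4
  have e2 := Nat.div_eq_of_lt_le h3' h4'
  exact val_inj (h2.trans h2'.symm) (e1.symm.trans e2)

/-- PROOF: `t = bits (i j + 1) (N / 2 ^ ((q - i) j))` with `N = cnt (q j) (R (h j)) ≤ 2 ^ (q j)`
(`cnt_le`). -/
theorem pre_exists {R : ℕ → List Bool → Prop} {q i : ℕ} (hi : i ≤ q) (j : ℕ) :
    ∃ t, Pre R h q i (h j) t := by
  have hP : 0 < 2 ^ ((q - i) * j) := by positivity
  have hN : cnt (q * j) (R (h j)) ≤ 2 ^ (q * j) := cnt_le _ _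
  have e1 : 2 ^ (q * j) = 2 ^ (i * j) * 2 ^ ((q - i) * j) := by
    rw [← pow_add, ← Nat.add_mul, Nat.add_sub_cancel' hi]
  have hlt : cnt (q * j) (R (h j)) / 2 ^ ((q - i) * j) < 2 ^ (i * j + 1) := by
    rw [Nat.div_lt_iff_lt_mul hP]
    have h2 : 2 ^ (i * j + 1) * 2 ^ ((q - i) * j) = 2 * 2 ^ (q * j) := by
      rw [e1]
      ring
    have h3 : 0 < 2 ^ (q * j) := by positivity
    omega
  refine ⟨bits (i * j + 1) (cnt (q * j) (R (h j)) / 2 ^ ((q - i) * j)), j, rfl,
    length_bits _ _, ?_, ?_⟩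
  · rw [val_bits hlt]
    exact Nat.div_mul_le_self _ _
  · rw [val_bits hlt]
    have h5 := Nat.lt_mul_div_succ (cnt (q * j) (R (h j))) hP
    rw [Nat.mul_comm (2 ^ ((q - i) * j))] at h5
    exact h5

theorem p2_const {A : ℕ → List Bool → Prop}
    (hA : NEXP O fun e : Fin 2 → List Bool => A (e 0).length (e 1)) (c : List Bool) :
    NEXP O fun e : Fin 2 → List Bool => A (e 0).length c := by
  have h1 : NEXP O fun e : Fin 3 → List Bool => e 2 = c ∧ A (e 0).length (e 2) :=
    (nexp_const c 2).and ((hA.reindex ![0, 2]).congr fun e => by simp)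
  have h2 := nexp_ex (R := fun (e : Fin 2 → List Bool) z => z = c ∧ A (e 0).length z) h1
    (g := fun _ => c.length) (PolyB.const _) (by
      rintro e z ⟨hz, _⟩
      rw [hz])
  refine h2.congr fun e => ?_
  constructor
  · rintro ⟨z, hz, h3⟩
    rwa [hz] at h3
  · intro h3
    exact ⟨c, rfl, h3⟩

theorem p2_iff (hs : StrictMono h) {R : ℕ → List Bool → Prop} {q ℓ : ℕ} {t : List Bool} :
    (t = [true] ∧ Ge R h q 0 ℓ [true]) ∨
      (t = [false] ∧ ∃ u : List Bool, (∃ j, ℓ = h j ∧ u.length = 1 * j) ∧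
        ¬ Ge R h q 0 ℓ [true]) ↔ Pre R h q 0 ℓ t := by
  have hv1 : val [true] = 1 := rfl
  have hv0 : val [false] = 0 := rfl
  constructor
  · rintro (⟨ht, hG⟩ | ⟨ht, u, ⟨j, hj, -⟩, hG⟩)
    · obtain ⟨j, h1, h2, h3⟩ := hG
      subst ht
      refine ⟨j, h1, h2, h3, ?_⟩
      have hN : cnt (q * j) (R ℓ) ≤ 2 ^ (q * j) := cnt_le _ _
      have hp : 0 < 2 ^ (q * j) := by positivity
      rw [hv1, Nat.sub_zero]
      omega
    · subst ht
      refine ⟨j, hj, by simp, ?_, ?_⟩
      · rw [hv0, Nat.zero_mul]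
        exact Nat.zero_le _
      · rw [hv0, Nat.zero_add, Nat.one_mul]
        by_contra hcon
        refine hG ⟨j, hj, by simp, ?_⟩
        rw [hv1, Nat.one_mul]
        exact not_lt.mp hcon
  · rintro ⟨j, h1, h2, h3, h4⟩
    rw [Nat.zero_mul, Nat.zero_add, List.length_eq_one_iff] at h2
    obtain ⟨b, hb⟩ := h2
    subst hb
    cases b with
    | true => exact Or.inl ⟨rfl, j, h1, by simp, h3⟩
    | false =>
      refine Or.inr ⟨rfl, List.replicate j true, ⟨j, h1, by simp⟩, ?_⟩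
      rintro ⟨j', h1', -, h3'⟩
      have hj : j = j' := hs.injective (h1.symm.trans h1')
      subst hj
      rw [hv1, Nat.one_mul] at h3'
      rw [hv0, Nat.zero_add, Nat.one_mul] at h4
      omega

/-- PROOF. The fact `R₀ ℓ u := Ge R h q 0 ℓ [true]` (it does not depend on `u`) is in the class
by `nexp_ge` (substitute the constant `[true]`: add a variable with `nexp_const`). By `hD` (`Dec O h 1`) so
is '`ℓ = h j`, `u.length = j` and not `Ge R h q 0 ℓ [true]`' for some `j`. Now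
`Pre R h q 0 ℓ t` iff (`t = [true]` and `Ge R h q 0 ℓ [true]`) or (`t = [false]` and there is `u`
with the complemented fact); note that `cnt (q j) P ≤ 2 ^ (q j)` gives the upper bound in the
first case. -/
theorem pre_zero (hs : StrictMono h) (hg : Graph O h) (hD : Dec O h 1) {R : ℕ → List Bool → Prop}
    (hR : NEXP O fun e : Fin 2 → List Bool => R (e 0).length (e 1)) {q : ℕ} :
    NEXP O fun e : Fin 2 → List Bool => Pre R h q 0 (e 0).length (e 1) := by
  have hG : NEXP O fun e : Fin 2 → List Bool => Ge R h q 0 (e 0).length [true] :=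
    p2_const (A := fun ℓ t => Ge R h q 0 ℓ t) (nexp_ge hs hg hR (Nat.zero_le q)) [true]
  have hN := hD (fun ℓ _ => Ge R h q 0 ℓ [true]) hG
  have h3 : NEXP O fun e : Fin 3 → List Bool =>
      (∃ j, (e 0).length = h j ∧ (e 2).length = 1 * j) ∧ ¬ Ge R h q 0 (e 0).length [true] :=
    (hN.reindex ![0, 2]).congr fun e => by simp
  have h4 := nexp_ex (R := fun (e : Fin 2 → List Bool) z =>
    (∃ j, (e 0).length = h j ∧ z.length = 1 * j) ∧ ¬ Ge R h q 0 (e 0).length [true]) h3
    (g := fun n => n) PolyB.id (by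
      rintro e z ⟨⟨j, h5, h6⟩, -⟩
      have h7 : j ≤ h j := hs.id_le j
      have h8 := len_le_size e 0
      omega)
  refine (((nexp_const [true] 1).and hG).or ((nexp_const [false] 1).and h4)).congr fun e => ?_
  exact p2_iff hs

end Pool.Agent.LibDown92
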