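import Pool.Agent.LibDown92.Pre

/-!
[TD P3] The leading bits of a number of strings are certified: one more block.
-/

namespace Pool.Agent.LibDown92

open Function Pool.Agent.LibNexp Pool.Agent.LibBHN Pool.Agent.LibDual85

variable {O : List Bool → Bool} {h : ℕ → ℕ}

/-- The next number with the leading bits `u ++ t`, `t` the certified leading bits, is a lower
bound, too. -/
def Nxt (R : ℕ → List Bool → Prop) (h : ℕ → ℕ) (q i : ℕ) (ℓ : ℕ) (u : List Bool) : Prop :=
  ∃ t t' : List Bool, Pre R h q i ℓ t ∧ Suc (u ++ t) t' ∧ Ge R h q (i + 1) ℓ t'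

/-- PROOF. `Nxt` is in the class (`nexp_exN`, variables `t, s = u ++ t, t'`; `nexp_append`,
`nexp_suc`, `nexp_ge`, lengths `≤ (i + 1) j + 1 ≤ poly (ℓ)`), so by `hD` the fact
'`ℓ = h j`, `u.length = j` and not `Nxt`' is in the class. Then
`Pre R h q (i + 1) ℓ s` iff there are `u, t` with `s = u ++ t`, `Pre R h q i ℓ t`,
`Ge R h q (i + 1) ℓ s`, and (`∃ j, ℓ = h j ∧ u.length = 1 * j`) and not `Nxt R h q i ℓ u`.
For `→`: put `u` = the first `j` bits of `s`, `t` = the rest; `val s = val u + 2 ^ j * val t`,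
`val u < 2 ^ j` (`cnt_val_lt`) and `(q - i) j = (q - (i + 1)) j + j` give `Pre R h q i ℓ t`; if
`Suc (u ++ t₂) t'` with `Pre R h q i ℓ t₂` then `t₂ = t` (`pre_unique`), `val t' = val s + 1` and
`Ge` contradicts the upper bound. For `←`: the upper bound: if `N ≥ (val s + 1) * 2 ^ _` then
`val s + 1 < 2 ^ s.length` because `N ≤ 2 ^ (q j)` and `val t` ... : if `val s + 1 = 2 ^ s.length`
then `(val s + 1) * 2 ^ ((q - (i+1)) j) = 2 ^ (q j + 1) > 2 ^ (q j) ≥ N`, impossible; so
`t' = bits s.length (val s + 1)` satisfies `Suc s t'` (`val_bits`) and `Ge`, hence `Nxt`. -/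
theorem pre_succ (hs : StrictMono h) (hg : Graph O h) (hD : Dec O h 1) {R : ℕ → List Bool → Prop}
    (hR : NEXP O fun e : Fin 2 → List Bool => R (e 0).length (e 1)) {q i : ℕ} (hi : i + 1 ≤ q)
    (ih : NEXP O fun e : Fin 2 → List Bool => Pre R h q i (e 0).length (e 1)) :
    NEXP O fun e : Fin 2 → List Bool => Pre R h q (i + 1) (e 0).length (e 1) := by
  -- the successor is a lower bound
  have h1 : NEXP O fun e : Fin 5 → List Bool =>
      (e 3 = e 1 ++ e 2 ∧ Pre R h q i (e 0).length (e 2)) ∧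
        (Suc (e 3) (e 4) ∧ Ge R h q (i + 1) (e 0).length (e 4)) :=
    ((nexp_append 1 2 3).and ((ih.reindex ![0, 2]).congr fun e => by simp)).and
      ((nexp_suc 3 4).and (((nexp_ge hs hg hR hi).reindex ![0, 4]).congr fun e => by simp))
  have h2 : NEXP O fun e : Fin 2 → List Bool => ∃ z : Fin 3 → List Bool,
      (z 1 = e 1 ++ z 0 ∧ Pre R h q i (e 0).length (z 0)) ∧
        (Suc (z 1) (z 2) ∧ Ge R h q (i + 1) (e 0).length (z 2)) := by
    refine nexp_exN (m := 3) (R := fun (e : Fin 2 → List Bool) (z : Fin 3 → List Bool) =>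
      (z 1 = e 1 ++ z 0 ∧ Pre R h q i (e 0).length (z 0)) ∧
        (Suc (z 1) (z 2) ∧ Ge R h q (i + 1) (e 0).length (z 2))) h1
      (g := fun n => (i + 1) * n + 1) (((PolyB.const _).mul PolyB.id).add (PolyB.const 1))
      (fun a b hab => Nat.add_le_add_right (Nat.mul_le_mul_left _ hab) 1) ?_
    rintro e z ⟨⟨h3, -⟩, h4, j, h5, h6, -⟩ l
    have h7 : j ≤ size e := (hs.id_le j).trans (h5 ▸ len_le_size e 0)
    have h8 : (i + 1) * j ≤ (i + 1) * size e := Nat.mul_le_mul_left _ h7
    have h9 := h4.1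
    have h10 := congrArg List.length h3
    rw [List.length_append] at h10
    show (z l).length ≤ (i + 1) * size e + 1
    fin_cases l
    · show (z 0).length ≤ _; omega
    · show (z 1).length ≤ _; omega
    · show (z 2).length ≤ _; omega
  have h3 : NEXP O fun e : Fin 2 → List Bool => Nxt R h q i (e 0).length (e 1) := by
    refine h2.congr fun e => ⟨?_, ?_⟩
    · rintro ⟨z, ⟨h4, h5⟩, h6, h7⟩
      exact ⟨z 0, z 2, h5, h4 ▸ h6, h7⟩
    · rintro ⟨t, t', h4, h5, h6⟩
      exact ⟨![t, e 1 ++ t, t'], ⟨rfl, h4⟩, h5, h6⟩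
  -- its negation, with a bound on the length
  have h4 := hD (fun ℓ u => Nxt R h q i ℓ u) h3
  have h5 : NEXP O fun e : Fin 4 → List Bool =>
      ((e 1 = e 2 ++ e 3 ∧ Pre R h q i (e 0).length (e 3)) ∧
        Ge R h q (i + 1) (e 0).length (e 1)) ∧
      ((∃ j, (e 0).length = h j ∧ (e 2).length = 1 * j) ∧ ¬ Nxt R h q i (e 0).length (e 2)) :=
    (((nexp_append 2 3 1).and ((ih.reindex ![0, 3]).congr fun e => by simp)).and
      (((nexp_ge hs hg hR hi).reindex ![0, 1]).congr fun e => by simp)).and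
      ((h4.reindex ![0, 2]).congr fun e => by simp)
  have h6 : NEXP O fun e : Fin 2 → List Bool => ∃ z : Fin 2 → List Bool,
      ((e 1 = z 0 ++ z 1 ∧ Pre R h q i (e 0).length (z 1)) ∧
        Ge R h q (i + 1) (e 0).length (e 1)) ∧
      ((∃ j, (e 0).length = h j ∧ (z 0).length = 1 * j) ∧
        ¬ Nxt R h q i (e 0).length (z 0)) := by
    refine nexp_exN (m := 2) (R := fun (e : Fin 2 → List Bool) (z : Fin 2 → List Bool) =>
      ((e 1 = z 0 ++ z 1 ∧ Pre R h q i (e 0).length (z 1)) ∧
        Ge R h q (i + 1) (e 0).length (e 1)) ∧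
      ((∃ j, (e 0).length = h j ∧ (z 0).length = 1 * j) ∧
        ¬ Nxt R h q i (e 0).length (z 0))) h5
      (g := fun n => n) PolyB.id monotone_id ?_
    rintro e z ⟨⟨⟨h7, -⟩, -⟩, -⟩ l
    have h8 := congrArg List.length h7
    rw [List.length_append] at h8
    have h9 := len_le_size e 1
    fin_cases l
    · show (z 0).length ≤ _; omega
    · show (z 1).length ≤ _; omega
  refine h6.congr fun e => ?_
  set ℓ := (e 0).length with hℓ
  set s := e 1 with hs'
  constructor
  · rintro ⟨z, ⟨⟨h7, j, h8, h9, h10, h11⟩, j', h12, h13, h14⟩, ⟨j'', h15, h16⟩, h17⟩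
    obtain rfl : j' = j := hs.injective (h12.symm.trans h8)
    obtain rfl : j'' = j' := hs.injective (h15.symm.trans h12)
    refine ⟨j'', h12, h13, h14, ?_⟩
    by_contra hcon
    rw [not_lt] at hcon
    have h18 := cnt_val_lt s
    rcases Nat.lt_or_ge (val s + 1) (2 ^ s.length) with h19 | h19
    · refine h17 ⟨z 1, bits s.length (val s + 1), ⟨j'', h8, h9, h10, h11⟩, ?_, j'', h12, ?_, ?_⟩
      · rw [← h7]
        exact ⟨length_bits _ _, val_bits h19⟩
      · rw [length_bits, h13]
      · rw [val_bits h19]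
        exact hcon
    · have h20 : val s + 1 = 2 ^ s.length := by omega
      rw [h20, h13, ← pow_add] at hcon
      have h21 := cnt_le (q * j'') (R ℓ)
      have h22 : (i + 1) * j'' + 1 + (q - (i + 1)) * j'' = q * j'' + 1 := by
        obtain ⟨d, rfl⟩ := Nat.exists_eq_add_of_le hi
        rw [Nat.add_sub_cancel_left]
        ring
      rw [h22, pow_succ] at hcon
      have h23 : 0 < 2 ^ (q * j'') := by positivity
      omega
  · rintro ⟨j, h7, h8, h9, h10⟩
    have h11 : s.take j ++ s.drop j = s := List.take_append_drop j s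
    have h12 : (s.take j).length = j := by
      rw [List.length_take, h8]
      have : j ≤ (i + 1) * j := Nat.le_mul_of_pos_left _ (by omega)
      omega
    have h13 : (s.drop j).length = i * j + 1 := by
      rw [List.length_drop, h8, Nat.add_mul]
      omega
    have h14 : val s = val (s.take j) + 2 ^ j * val (s.drop j) := by
      conv_lhs => rw [← h11]
      rw [val_app, h12]
    have h15 := cnt_val_lt (s.take j)
    rw [h12] at h15
    have h16 : 2 ^ ((q - i) * j) = 2 ^ j * 2 ^ ((q - (i + 1)) * j) := by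
      rw [← pow_add]
      congr 1
      obtain ⟨d, rfl⟩ := Nat.exists_eq_add_of_le hi
      have e1 : i + 1 + d - i = d + 1 := by omega
      rw [Nat.add_sub_cancel_left, e1]
      ring
    have h17 : Pre R h q i ℓ (s.drop j) := by
      refine ⟨j, h7, h13, ?_, ?_⟩
      · rw [h16]
        calc val (s.drop j) * (2 ^ j * 2 ^ ((q - (i + 1)) * j))
            = (2 ^ j * val (s.drop j)) * 2 ^ ((q - (i + 1)) * j) := by ring
          _ ≤ val s * 2 ^ ((q - (i + 1)) * j) := Nat.mul_le_mul_right _ (by omega)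
          _ ≤ _ := h9
      · rw [h16]
        calc cnt (q * j) (R ℓ) < (val s + 1) * 2 ^ ((q - (i + 1)) * j) := h10
          _ ≤ (2 ^ j * (val (s.drop j) + 1)) * 2 ^ ((q - (i + 1)) * j) := by
            refine Nat.mul_le_mul_right _ ?_
            rw [Nat.mul_add]
            omega
          _ = _ := by ring
    refine ⟨![s.take j, s.drop j], ⟨⟨h11.symm, h17⟩, j, h7, h8, h9⟩, ⟨j, h7, ?_⟩, ?_⟩
    · show (s.take j).length = 1 * j
      rw [h12, one_mul]
    · rintro ⟨t₂, t', h18, h19, j', h20, h21, h22⟩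
      obtain rfl : j' = j := hs.injective (h20.symm.trans h7)
      have h23 : t₂ = s.drop j' := pre_unique hs h18 h17
      have h24 : Suc (s.take j' ++ t₂) t' := h19
      rw [h23, h11] at h24
      rw [h24.2] at h22
      omega

theorem nexp_pre (hs : StrictMono h) (hg : Graph O h) (hD : Dec O h 1) {R : ℕ → List Bool → Prop}
    (hR : NEXP O fun e : Fin 2 → List Bool => R (e 0).length (e 1)) {q : ℕ} :
    ∀ i, i ≤ q → NEXP O fun e : Fin 2 → List Bool => Pre R h q i (e 0).length (e 1) := by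
  intro i
  induction i with
  | zero => exact fun _ => pre_zero hs hg hD hR
  | succ i ih => exact fun hi => pre_succ hs hg hD hR hi (ih (by omega))

end Pool.Agent.LibDown92
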