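import Pool.Agent.LibDual85.BitL

/-!
[TD P7] Languages of `P^NEXP` which depend only on the length.
-/

namespace Pool.Agent.LibDown92

open Function Pool.Agent.LibNexp Pool.Agent.LibBHN Pool.Agent.LibDual85

variable {O : List Bool → Bool}

/-- The bits of the census of `K`, as a language depending only on the length. -/
def TB (K : Lang) : Lang :=
  {x | ∃ n i : ℕ, x.length = (n + 1) ^ 2 + i ∧ i ≤ n ∧
    (bits (n + 1) (cnt n fun y => y ∈ K))[i]? = some true}

theorem tb_shape {n i m j : ℕ} (h : (n + 1) ^ 2 + i = (m + 1) ^ 2 + j) (hi : i ≤ n)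
    (hj : j ≤ m) : n = m ∧ i = j := by
  have h1 : n = m := by
    rcases lt_trichotomy n m with h2 | h2 | h2
    · exfalso; nlinarith
    · exact h2
    · exfalso; nlinarith
  subst h1
  exact ⟨rfl, by omega⟩

/-- The protocol. -/
def TBRel (K : Lang) (x α : List Bool) : Prop :=
  ∃ u v : List Bool, (x.length = (u.length + 1) ^ 2 + v.length ∧ v.length ≤ u.length) ∧
    (BitQ K (pair u v) α ∨ BitF (pair u v) α)

theorem nexp_tbRel {K : Lang} (hK : K ∈ NEXPLang O) :
    NEXP O fun e : Fin 2 → List Bool => TBRel K (e 0) (e 1) := by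
  -- x, α | u, v, a, b, c, p
  have hp : NEXP O fun e : Fin 8 → List Bool => BitQ K (e 7) (e 1) ∨ BitF (e 7) (e 1) := by
    refine (((nexp_bitQ hK).or (nexp_bitF (O := O))).reindex ![7, 1]).congr fun e => ?_
    simp
  have h1 : NEXP O fun e : Fin 8 → List Bool => ((e 7 = pair (e 2) (e 3) ∧
      (e 4).length = 1 * (e 2).length + 1) ∧ ((e 5).length = (e 4).length ^ 2 + 0 ∧
      e 6 = e 5 ++ e 3)) ∧ (((e 0).length = 1 * (e 6).length + 0 ∧ (e 3).length ≤ (e 2).length) ∧
      (BitQ K (e 7) (e 1) ∨ BitF (e 7) (e 1))) :=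
    (((nexp_pair 2 3 7).and (nexp_lin 1 1 2 4)).and ((nexp_powAdd 2 0 4 5).and
      (nexp_append 5 3 6))).and (((nexp_lin 1 0 6 0).and (nexp_lenLe 3 2)).and hp)
  have h2 := nexp_exN (k := 2) (m := 6) (R := fun e z => ((z 5 = pair (z 0) (z 1) ∧
      (z 2).length = 1 * (z 0).length + 1) ∧ ((z 3).length = (z 2).length ^ 2 + 0 ∧
      z 4 = z 3 ++ z 1)) ∧ (((e 0).length = 1 * (z 4).length + 0 ∧ (z 1).length ≤ (z 0).length) ∧
      (BitQ K (z 5) (e 1) ∨ BitF (z 5) (e 1)))) h1
    (g := fun n => 3 * n + 5) (((PolyB.const 3).mul PolyB.id).add (PolyB.const 5))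
    (fun m n h => by simp only; omega) (by
      rintro e z ⟨⟨⟨a1, a2⟩, a3, a4⟩, ⟨a5, a6⟩, -⟩ j
      have l0 := len_le_size e 0
      have b1 := congrArg List.length a1
      have b4 := congrArg List.length a4
      rw [length_pair] at b1
      rw [List.length_append] at b4
      have b3 : (z 2).length ≤ (z 3).length := by
        rw [a3, Nat.add_zero]
        exact Nat.le_self_pow (by norm_num) _
      show _ ≤ 3 * size e + 5
      fin_cases j
      · show (z 0).length ≤ _; omega
      · show (z 1).length ≤ _; omega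
      · show (z 2).length ≤ _; omega
      · show (z 3).length ≤ _; omega
      · show (z 4).length ≤ _; omega
      · show (z 5).length ≤ _; omega)
  refine h2.congr fun e => ?_
  constructor
  · rintro ⟨z, ⟨⟨a1, a2⟩, a3, a4⟩, ⟨a5, a6⟩, a7⟩
    have b4 := congrArg List.length a4
    rw [List.length_append] at b4
    refine ⟨z 0, z 1, ⟨?_, a6⟩, ?_⟩
    · rw [a5, b4, a3, a2]
      ring
    · rw [← a1]
      exact a7
  · rintro ⟨u, v, ⟨a1, a2⟩, a3⟩
    refine ⟨![u, v, List.replicate (u.length + 1) true,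
      List.replicate ((u.length + 1) ^ 2) true,
      List.replicate ((u.length + 1) ^ 2) true ++ v, pair u v],
      ⟨⟨rfl, ?_⟩, ?_, rfl⟩, ⟨?_, a2⟩, a3⟩
    · show (List.replicate (u.length + 1) true).length = 1 * u.length + 1
      rw [List.length_replicate]; ring
    · show (List.replicate ((u.length + 1) ^ 2) true).length =
        (List.replicate (u.length + 1) true).length ^ 2 + 0
      simp only [List.length_replicate, Nat.add_zero]
    · show (e 0).length = 1 * (List.replicate ((u.length + 1) ^ 2) true ++ v).length + 0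
      rw [List.length_append, List.length_replicate, a1]
      ring

/-- PROOF: copy `Pool.Agent.LibDual85.bitLang_mem` (LibDual85/BitL.lean) with the protocol
`C x α := ∃ u v : List Bool, (x.length = (u.length + 1) ^ 2 + v.length ∧ v.length ≤ u.length) ∧
(BitQ K (pair u v) α ∨ BitF (pair u v) α)`; `BitQ K (pair u v) α` and `BitF (pair u v) α` depend
only on the lengths of `u` and `v` (`bitQ_iff`, `bitF_iff`), and `(n + 1) ^ 2 + i` with `i ≤ n`
determines `n` and `i`. In `PNEXP` take `c = 1` as there. -/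
theorem tb_mem {K : Lang} (hK : K ∈ NEXPLang O) : TB K ∈ POracle (NEXPLang O) := by
  classical
  apply pnexp_subset
  obtain ⟨C, hC, hCR⟩ := rel_of_nexp (C := fun x α => TBRel K x α) (O := O) (nexp_tbRel hK)
  refine ⟨C, hC, 1, fun x => ?_⟩
  by_cases hx : ∃ n i, x.length = (n + 1) ^ 2 + i ∧ i ≤ n
  · obtain ⟨n, i, hxl, hin⟩ := hx
    set N := cnt n fun y => y ∈ K with hN
    have hlt : N < 2 ^ (n + 1) := by
      have := cnt_le n fun y => y ∈ K
      have h2 : 2 ^ n < 2 ^ (n + 1) := Nat.pow_lt_pow_right (by norm_num) (by omega)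
      omega
    -- the protocol on `x`
    have hrel : ∀ α : List Bool, TBRel K x α ↔ ∃ u v : List Bool, (u.length = n ∧ v.length = i) ∧
        (BitQ K (pair u v) α ∨ BitF (pair u v) α) := by
      intro α
      constructor
      · rintro ⟨u, v, ⟨h1, h2⟩, h3⟩
        obtain ⟨h4, h5⟩ := tb_shape (h1.symm.trans hxl) h2 hin
        exact ⟨u, v, ⟨h4, h5⟩, h3⟩
      · rintro ⟨u, v, ⟨h4, h5⟩, h3⟩
        exact ⟨u, v, ⟨by rw [h4, h5]; exact hxl, by omega⟩, h3⟩
    have hF : ∀ u v α : List Bool, α.length ≤ u.length → ¬ BitF (pair u v) α := by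
      rintro u v α h1 ⟨z, ⟨⟨a1, a2⟩, a3, a4⟩, a5, a6⟩
      obtain ⟨rfl, rfl⟩ := pair_injective a1
      have := congrArg List.length a2
      rw [List.length_append] at this
      omega
    have hs : ∀ j < n + 1, ans C x (j + 1) = ans C x j ++
        [decide (val (thr (n + 1) (ans C x j)) ≤ N)] := by
      intro j hj
      rw [ans]
      congr 2
      have h1 : (ans C x j).length ≤ n := by rw [length_ans]; omega
      have h2 : pair x (ans C x j) ∈ C ↔ val (thr (n + 1) (ans C x j)) ≤ N := by
        rw [hCR, hrel]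
        constructor
        · rintro ⟨u, v, ⟨h4, h5⟩, h3 | h3⟩
          · rw [bitQ_iff, h4] at h3
            exact h3.2
          · exact absurd h3 (hF u v _ (by omega))
        · intro h3
          refine ⟨List.replicate n true, List.replicate i true,
            ⟨List.length_replicate, List.length_replicate⟩, Or.inl ?_⟩
          rw [bitQ_iff, List.length_replicate]
          exact ⟨h1, h3⟩
      simp only [h2]
    obtain ⟨h3, h4⟩ := search hlt (a := ans C x) rfl hs (n + 1) le_rfl
    rw [Nat.sub_self, pow_zero, Nat.div_one] at h4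
    have h5 : (ans C x (n + 1)).reverse = bits (n + 1) N := by
      refine val_inj ?_ ?_
      · rw [List.length_reverse, h3, length_bits]
      · rw [h4, val_bits hlt]
    have hr : n + 1 ≤ x.length ^ 1 + 1 := by
      rw [pow_one, hxl]
      nlinarith
    have hr' : n < x.length ^ 1 + 1 := hr
    rw [hCR, hrel]
    have h6 : ∀ u v : List Bool, u.length = n → ¬ BitQ K (pair u v) (ans C x (x.length ^ 1 + 1)) := by
      intro u v hu
      rw [bitQ_iff, length_ans]
      rintro ⟨h7, -⟩
      omega
    constructor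
    · rintro ⟨n', i', h7, h8, h9⟩
      obtain ⟨rfl, rfl⟩ := tb_shape (h7.symm.trans hxl) h8 hin
      refine ⟨List.replicate n' true, List.replicate i' true,
        ⟨List.length_replicate, List.length_replicate⟩, Or.inr ?_⟩
      rw [bitF_iff (by rw [length_ans, List.length_replicate]; exact hr), List.length_replicate,
        List.length_replicate, ans_take C _ hr, h5]
      exact h9
    · rintro ⟨u, v, ⟨h7, h8⟩, h9 | h9⟩
      · exact absurd h9 (h6 u v h7)
      · rw [bitF_iff (by rw [length_ans, h7]; exact hr), h7, h8, ans_take C _ hr, h5] at h9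
        exact ⟨n, i, hxl, hin, h9⟩
  · rw [hCR]
    constructor
    · rintro ⟨n, i, h1, h2, -⟩
      exact absurd ⟨n, i, h1, h2⟩ hx
    · rintro ⟨u, v, ⟨h1, h2⟩, -⟩
      exact absurd ⟨_, _, h1, h2⟩ hx

end Pool.Agent.LibDown92
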